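import Mathlib

/-!
Disjoint spectra of matrices and the Sylvester equation.
-/

set_option autoImplicit false

namespace Pool.Agent.P99223

open Polynomial Matrix Kronecker

section

variable {ι κ : Type*} [Fintype ι] [DecidableEq ι] [Fintype κ] [DecidableEq κ]

/-- `A` and `B` are annihilated by coprime polynomials. -/
def Disj (A : Matrix ι ι ℂ) (B : Matrix κ κ ℂ) : Prop :=
  ∃ p q : ℂ[X], IsCoprime p q ∧ aeval A p = 0 ∧ aeval B q = 0

theorem Disj.symm {A : Matrix ι ι ℂ} {B : Matrix κ κ ℂ} (h : Disj A B) : Disj B A := by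
  obtain ⟨p, q, h1, h2, h3⟩ := h
  exact ⟨q, p, h1.symm, h3, h2⟩

theorem disj_iff {A : Matrix ι ι ℂ} {B : Matrix κ κ ℂ} :
    Disj A B ↔ IsCoprime (minpoly ℂ A) (minpoly ℂ B) := by
  constructor
  · rintro ⟨p, q, h1, h2, h3⟩
    exact h1.of_isCoprime_of_dvd_left (minpoly.dvd ℂ A h2) |>.of_isCoprime_of_dvd_right
      (minpoly.dvd ℂ B h3)
  · intro h
    exact ⟨_, _, h, minpoly.aeval ℂ A, minpoly.aeval ℂ B⟩

theorem aeval_conj' (P : (Matrix ι ι ℂ)ˣ) (A : Matrix ι ι ℂ) (p : ℂ[X]) :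
    aeval ((P : Matrix ι ι ℂ) * A * (↑P⁻¹ : Matrix ι ι ℂ)) p = P * aeval A p * (↑P⁻¹ : Matrix ι ι ℂ) := by
  induction p using Polynomial.induction_on' with
  | add p q hp hq => rw [map_add, map_add, hp, hq, mul_add, add_mul]
  | monomial n a =>
    rw [aeval_monomial, aeval_monomial, Units.conj_pow, Algebra.algebraMap_eq_smul_one,
      smul_mul_assoc, one_mul, smul_mul_assoc, one_mul, mul_smul_comm, smul_mul_assoc]

theorem Disj.conj {A : Matrix ι ι ℂ} {B : Matrix κ κ ℂ} (h : Disj A B)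
    (P : (Matrix ι ι ℂ)ˣ) (Q : (Matrix κ κ ℂ)ˣ) :
    Disj ((P : Matrix ι ι ℂ) * A * (↑P⁻¹ : Matrix ι ι ℂ))
      ((Q : Matrix κ κ ℂ) * B * (↑Q⁻¹ : Matrix κ κ ℂ)) := by
  obtain ⟨p, q, h1, h2, h3⟩ := h
  exact ⟨p, q, h1, by rw [aeval_conj', h2, mul_zero, zero_mul],
    by rw [aeval_conj', h3, mul_zero, zero_mul]⟩

theorem not_disj_one [Nonempty ι] : ¬ Disj (1 : Matrix ι ι ℂ) (1 : Matrix ι ι ℂ) := by
  rintro ⟨p, q, ⟨a, b, hab⟩, h2, h3⟩
  have h := congrArg (aeval (1 : Matrix ι ι ℂ)) hab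
  rw [map_add, map_mul, map_mul, h2, h3, mul_zero, mul_zero, add_zero, map_one] at h
  exact zero_ne_one h

/-- no common eigenvalue -/
theorem disj_of_eig {A : Matrix ι ι ℂ} {B : Matrix κ κ ℂ}
    (h : ∀ μ : ℂ, A.charpoly.IsRoot μ → B.charpoly.IsRoot μ → False) : Disj A B := by
  refine ⟨A.charpoly, B.charpoly, ?_, Matrix.aeval_self_charpoly A,
    Matrix.aeval_self_charpoly B⟩
  rw [Polynomial.isCoprime_iff_aeval_ne_zero_of_isAlgClosed ℂ ℂ]
  intro μ
  by_contra hc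
  push Not at hc
  obtain ⟨h1, h2⟩ := hc
  exact h μ (by simpa [IsRoot, aeval_def] using h1) (by simpa [IsRoot, aeval_def] using h2)

/-- if `a`, `b` commute and `a u = b u` then `p(a) u = p(b) u` -/
theorem aeval_mulVec_eq {a b : Matrix ι ι ℂ} (hab : a * b = b * a) {u : ι → ℂ}
    (h : a *ᵥ u = b *ᵥ u) (p : ℂ[X]) : (aeval a p) *ᵥ u = (aeval b p) *ᵥ u := by
  have hpow : ∀ n : ℕ, (a ^ n) *ᵥ u = (b ^ n) *ᵥ u := by
    intro n
    induction n with
    | zero => simp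
    | succ n ih =>
      have hc : Commute (b ^ n) a := (Commute.pow_left (show Commute b a from hab.symm) n)
      rw [pow_succ' a, ← Matrix.mulVec_mulVec, ih, Matrix.mulVec_mulVec, ← hc.eq,
        ← Matrix.mulVec_mulVec, h, Matrix.mulVec_mulVec, ← pow_succ]
  induction p using Polynomial.induction_on' with
  | add p q hp hq => rw [map_add, map_add, Matrix.add_mulVec, Matrix.add_mulVec, hp, hq]
  | monomial n c =>
    rw [aeval_monomial, aeval_monomial, Algebra.algebraMap_eq_smul_one, smul_mul_assoc, one_mul,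
      smul_mul_assoc, one_mul, Matrix.smul_mulVec, Matrix.smul_mulVec, hpow]

theorem eq_zero_of_disj {a b : Matrix ι ι ℂ} (hab : a * b = b * a) (hd : Disj a b) {u : ι → ℂ}
    (h : a *ᵥ u = b *ᵥ u) : u = 0 := by
  obtain ⟨p, q, ⟨r, s, hrs⟩, h2, h3⟩ := hd
  have h4 : (aeval b p) *ᵥ u = 0 := by
    rw [← aeval_mulVec_eq hab h, h2, Matrix.zero_mulVec]
  have h5 := congrArg (fun p : ℂ[X] => (aeval b p) *ᵥ u) hrs
  simp only [map_add, map_mul, map_one, Matrix.add_mulVec, Matrix.one_mulVec,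
    ← Matrix.mulVec_mulVec, h4, h3, Matrix.zero_mulVec, Matrix.mulVec_zero, add_zero] at h5
  exact h5.symm

theorem aeval_kron_left (A : Matrix ι ι ℂ) (p : ℂ[X]) :
    aeval (A ⊗ₖ (1 : Matrix κ κ ℂ)) p = (aeval A p) ⊗ₖ (1 : Matrix κ κ ℂ) := by
  have hpow : ∀ n : ℕ, (A ⊗ₖ (1 : Matrix κ κ ℂ)) ^ n = (A ^ n) ⊗ₖ (1 : Matrix κ κ ℂ) := by
    intro n
    induction n with
    | zero => simp
    | succ n ih => rw [pow_succ, ih, ← Matrix.mul_kronecker_mul, mul_one, ← pow_succ]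
  induction p using Polynomial.induction_on' with
  | add p q hp hq => rw [map_add, map_add, hp, hq, Matrix.add_kronecker]
  | monomial n c =>
    rw [aeval_monomial, aeval_monomial, Algebra.algebraMap_eq_smul_one, smul_mul_assoc, one_mul,
      Algebra.algebraMap_eq_smul_one, smul_mul_assoc, one_mul, hpow, Matrix.smul_kronecker]

theorem aeval_kron_right (B : Matrix κ κ ℂ) (p : ℂ[X]) :
    aeval ((1 : Matrix ι ι ℂ) ⊗ₖ B) p = (1 : Matrix ι ι ℂ) ⊗ₖ (aeval B p) := by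
  have hpow : ∀ n : ℕ, ((1 : Matrix ι ι ℂ) ⊗ₖ B) ^ n = (1 : Matrix ι ι ℂ) ⊗ₖ (B ^ n) := by
    intro n
    induction n with
    | zero => simp
    | succ n ih => rw [pow_succ, ih, ← Matrix.mul_kronecker_mul, mul_one, ← pow_succ]
  induction p using Polynomial.induction_on' with
  | add p q hp hq => rw [map_add, map_add, hp, hq, Matrix.kronecker_add]
  | monomial n c =>
    rw [aeval_monomial, aeval_monomial, Algebra.algebraMap_eq_smul_one, smul_mul_assoc, one_mul,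
      Algebra.algebraMap_eq_smul_one, smul_mul_assoc, one_mul, hpow, Matrix.kronecker_smul]

/-- separation: commuting matrices with disjoint spectra -/
theorem sub_mulVec_injective {a b : Matrix ι ι ℂ} (hab : a * b = b * a) (hd : Disj a b)
    {u : ι → ℂ} (h : (b - a) *ᵥ u = 0) : u = 0 := by
  rw [Matrix.sub_mulVec, sub_eq_zero] at h
  exact eq_zero_of_disj hab hd h.symm

theorem Disj.kron_left {A B : Matrix ι ι ℂ} (h : Disj A B) :
    Disj (A ⊗ₖ (1 : Matrix κ κ ℂ)) (B ⊗ₖ (1 : Matrix κ κ ℂ)) := by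
  obtain ⟨p, q, h1, h2, h3⟩ := h
  exact ⟨p, q, h1, by rw [aeval_kron_left, h2, Matrix.zero_kronecker],
    by rw [aeval_kron_left, h3, Matrix.zero_kronecker]⟩

theorem Disj.kron_right {A B : Matrix κ κ ℂ} (h : Disj A B) :
    Disj ((1 : Matrix ι ι ℂ) ⊗ₖ A) ((1 : Matrix ι ι ℂ) ⊗ₖ B) := by
  obtain ⟨p, q, h1, h2, h3⟩ := h
  exact ⟨p, q, h1, by rw [aeval_kron_right, h2, Matrix.kronecker_zero],
    by rw [aeval_kron_right, h3, Matrix.kronecker_zero]⟩

theorem Disj.kron_mix {A : Matrix ι ι ℂ} {B : Matrix κ κ ℂ} (h : Disj A B) :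
    Disj (A ⊗ₖ (1 : Matrix κ κ ℂ)) ((1 : Matrix ι ι ℂ) ⊗ₖ B) := by
  obtain ⟨p, q, h1, h2, h3⟩ := h
  exact ⟨p, q, h1, by rw [aeval_kron_left, h2, Matrix.zero_kronecker],
    by rw [aeval_kron_right, h3, Matrix.kronecker_zero]⟩

theorem aeval_fromBlocks {m : Type*} [Fintype m] [DecidableEq m] (P Q : Matrix m m ℂ) (p : ℂ[X]) :
    aeval (Matrix.fromBlocks P 0 0 Q) p = Matrix.fromBlocks (aeval P p) 0 0 (aeval Q p) := by
  have hpow : ∀ n : ℕ, (Matrix.fromBlocks P 0 0 Q) ^ n = Matrix.fromBlocks (P ^ n) 0 0 (Q ^ n) := by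
    intro n
    induction n with
    | zero => simp
    | succ n ih =>
      rw [pow_succ, ih, Matrix.fromBlocks_multiply]
      simp [pow_succ]
  induction p using Polynomial.induction_on' with
  | add p q hp hq => rw [map_add, hp, hq, Matrix.fromBlocks_add]; simp
  | monomial n c =>
    simp only [aeval_monomial, Algebra.algebraMap_eq_smul_one, smul_mul_assoc, one_mul]
    rw [hpow, Matrix.fromBlocks_smul]
    simp

/-- disjointness for block diagonal matrices -/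
theorem Disj.blocks {A A' : Matrix ι ι ℂ} {B B' : Matrix κ κ ℂ} (h11 : Disj A B)
    (h12 : Disj A B') (h21 : Disj A' B) (h22 : Disj A' B') :
    Disj (Matrix.fromBlocks A 0 0 A') (Matrix.fromBlocks B 0 0 B') := by
  rw [disj_iff] at h11 h12 h21 h22
  refine ⟨minpoly ℂ A * minpoly ℂ A', minpoly ℂ B * minpoly ℂ B',
    (h11.mul_right h12).mul_left (h21.mul_right h22), ?_, ?_⟩
  · rw [aeval_fromBlocks, map_mul, map_mul, minpoly.aeval, minpoly.aeval, zero_mul, mul_zero,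
      Matrix.fromBlocks_zero]
  · rw [aeval_fromBlocks, map_mul, map_mul, minpoly.aeval, minpoly.aeval, zero_mul, mul_zero,
      Matrix.fromBlocks_zero]

theorem root_ne_zero (U : (Matrix ι ι ℂ)ˣ) {μ : ℂ} (h : (U : Matrix ι ι ℂ).charpoly.IsRoot μ) :
    μ ≠ 0 := by
  rintro rfl
  rw [IsRoot.def, Matrix.eval_charpoly] at h
  have h1 : (-(U : Matrix ι ι ℂ)).det = 0 := by simpa using h
  rw [Matrix.det_neg] at h1
  have h2 : (U : Matrix ι ι ℂ).det ≠ 0 := by
    have := (Matrix.isUnit_iff_isUnit_det _).mp U.isUnit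
    exact this.ne_zero
  exact (mul_ne_zero (pow_ne_zero _ (by norm_num)) h2) h1

theorem det_sub_of_root {M : Matrix ι ι ℂ} {μ : ℂ} (h : M.charpoly.IsRoot μ) :
    (M - μ • 1).det = 0 := by
  rw [IsRoot.def, Matrix.eval_charpoly] at h
  have h1 : M - μ • 1 = - (Matrix.scalar ι μ - M) := by
    rw [neg_sub]
    congr 1
    ext i j
    simp [Matrix.one_apply, Matrix.diagonal_apply]
  rw [h1, Matrix.det_neg, h, mul_zero]

theorem disj_of_isConj {H : Type*} [Group H] {R : H →* (Matrix ι ι ℂ)ˣ} {R' : H →* (Matrix κ κ ℂ)ˣ}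
    {g h : H} (hc : IsConj g h)
    (hd : Disj (R h : Matrix ι ι ℂ) (R' h : Matrix κ κ ℂ)) :
    Disj (R g : Matrix ι ι ℂ) (R' g : Matrix κ κ ℂ) := by
  obtain ⟨c, hc⟩ := isConj_iff.mp hc.symm
  have := hd.conj (R c) (R' c)
  rw [← hc]
  simpa only [map_mul, map_inv, Units.val_mul] using this

end

end Pool.Agent.P99223
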