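import Mathlib

/-!
Every element of `F * H` is conjugate to an element of `F`, an element of `H` or to a cyclically
reduced word.
-/

set_option autoImplicit false

namespace Pool.Agent.P99223

section

variable {F H G : Type*} [Group F] [Group H] [Group G] (i : F →* G) (j : H →* G)

/-- cyclically reduced words `∏ f h` -/
structure Red (L : List (F × H)) : Prop where
  ne : L ≠ []
  fst : ∀ x ∈ L, x.1 ≠ 1
  snd : ∀ x ∈ L, x.2 ≠ 1

/-- the value of a word -/
def wd (L : List (F × H)) : G := (L.map fun y => i y.1 * j y.2).prod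

theorem wd_append (L M : List (F × H)) : wd i j (L ++ M) = wd i j L * wd i j M := by
  simp [wd]

theorem wd_cons (y : F × H) (M : List (F × H)) :
    wd i j (y :: M) = i y.1 * j y.2 * wd i j M := by
  simp [wd]

theorem isConj_mul_comm (a b : G) : IsConj (a * b) (b * a) :=
  isConj_iff.mpr ⟨b, by group⟩

theorem exists_reduced : ∀ (n : ℕ) (L : List (F × H)), L.length = n → L ≠ [] →
    (∃ f, IsConj (wd i j L) (i f)) ∨ (∃ h, IsConj (wd i j L) (j h)) ∨
      ∃ L', Red L' ∧ IsConj (wd i j L) (wd i j L') := by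
  intro n
  induction n using Nat.strong_induction_on with
  | _ n ih =>
  intro L hn hL
  by_cases hred : (∀ y ∈ L, y.1 ≠ 1) ∧ ∀ y ∈ L, y.2 ≠ 1
  · right; right
    exact ⟨L, ⟨hL, hred.1, hred.2⟩, IsConj.refl _⟩
  by_cases h1 : L.length = 1
  · obtain ⟨y, rfl⟩ := List.length_eq_one_iff.mp h1
    by_cases hy : y.1 = 1
    · right; left
      refine ⟨y.2, ?_⟩
      have : wd i j [y] = j y.2 := by
        rw [wd_cons, hy]
        simp [wd]
      rw [this]
    · left
      have hy2 : y.2 = 1 := by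
        by_contra h
        exact hred ⟨by simpa using hy, by simpa using h⟩
      refine ⟨y.1, ?_⟩
      have : wd i j [y] = i y.1 := by
        rw [wd_cons, hy2]
        simp [wd]
      rw [this]
  · obtain ⟨y, hy, hy'⟩ : ∃ y ∈ L, y.1 = 1 ∨ y.2 = 1 := by
      by_contra hc
      push Not at hc
      exact hred ⟨fun y hy => (hc y hy).1, fun y hy => (hc y hy).2⟩
    obtain ⟨A, B, rfl⟩ := List.append_of_mem hy
    have hc : IsConj (wd i j (A ++ y :: B)) (wd i j (y :: (B ++ A))) := by
      rw [← List.cons_append, wd_append, wd_append]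
      exact isConj_mul_comm _ _
    have hlen : (B ++ A).length + 1 = n := by
      rw [← hn]; simp; ring
    have hM : B ++ A ≠ [] := by
      intro h0
      rw [h0] at hlen
      rw [hn] at h1
      exact h1 (by simpa using hlen.symm)
    rw [wd_cons] at hc
    rcases hy' with hy' | hy'
    · rw [hy', map_one, one_mul] at hc
      obtain ⟨M, z, hMz⟩ : ∃ M z, B ++ A = M ++ [z] :=
        ⟨(B ++ A).dropLast, (B ++ A).getLast hM, (List.dropLast_append_getLast hM).symm⟩
      have hc2 : IsConj (wd i j (A ++ y :: B)) (wd i j (M ++ [(z.1, z.2 * y.2)])) := by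
        refine hc.trans ((isConj_mul_comm _ _).trans ?_)
        rw [hMz, wd_append, wd_append]
        have : wd i j [z] * j y.2 = wd i j [(z.1, z.2 * y.2)] := by
          simp [wd, mul_assoc]
        rw [mul_assoc, this]
      have hl : (M ++ [(z.1, z.2 * y.2)]).length + 1 = n := by
        rw [← hlen, hMz]; simp
      rcases ih _ (by omega) (M ++ [(z.1, z.2 * y.2)]) rfl (by simp) with
        ⟨f, hf⟩ | ⟨h, hh⟩ | ⟨L', h2, h3⟩
      · exact Or.inl ⟨f, hc2.trans hf⟩
      · exact Or.inr (Or.inl ⟨h, hc2.trans hh⟩)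
      · exact Or.inr (Or.inr ⟨L', h2, hc2.trans h3⟩)
    · rw [hy', map_one, mul_one] at hc
      obtain ⟨z, M, hMz⟩ : ∃ z M, B ++ A = z :: M := List.exists_cons_of_ne_nil hM
      have hc2 : IsConj (wd i j (A ++ y :: B)) (wd i j ((y.1 * z.1, z.2) :: M)) := by
        refine hc.trans ?_
        rw [hMz, wd_cons, wd_cons, map_mul]
        simp only [mul_assoc]
        exact IsConj.refl _
      have hl : ((y.1 * z.1, z.2) :: M).length + 1 = n := by
        rw [← hlen, hMz]; simp
      rcases ih _ (by omega) ((y.1 * z.1, z.2) :: M) rfl (by simp) with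
        ⟨f, hf⟩ | ⟨h, hh⟩ | ⟨L', h2, h3⟩
      · exact Or.inl ⟨f, hc2.trans hf⟩
      · exact Or.inr (Or.inl ⟨h, hc2.trans hh⟩)
      · exact Or.inr (Or.inr ⟨L', h2, hc2.trans h3⟩)

end

section

variable {α β : Type*}

/-- left factor -/
abbrev iL (α β : Type*) : FreeGroup α →* FreeGroup (α ⊕ β) := FreeGroup.map Sum.inl

/-- right factor -/
abbrev iR (α β : Type*) : FreeGroup β →* FreeGroup (α ⊕ β) := FreeGroup.map Sum.inr

theorem all_words (g : FreeGroup (α ⊕ β)) :
    ∃ L : List (FreeGroup α × FreeGroup β), L ≠ [] ∧ g = wd (iL α β) (iR α β) L := by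
  have hof : ∀ c : α ⊕ β, ∃ L : List (FreeGroup α × FreeGroup β),
      L ≠ [] ∧ FreeGroup.of c = wd (iL α β) (iR α β) L := by
    rintro (a | b)
    · exact ⟨[(FreeGroup.of a, 1)], by simp, by simp [wd]⟩
    · exact ⟨[(1, FreeGroup.of b)], by simp, by simp [wd]⟩
  have hofi : ∀ c : α ⊕ β, ∃ L : List (FreeGroup α × FreeGroup β),
      L ≠ [] ∧ (FreeGroup.of c)⁻¹ = wd (iL α β) (iR α β) L := by
    rintro (a | b)
    · exact ⟨[((FreeGroup.of a)⁻¹, 1)], by simp, by simp [wd]⟩
    · exact ⟨[(1, (FreeGroup.of b)⁻¹)], by simp, by simp [wd]⟩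
  induction g using FreeGroup.induction_on with
  | C1 => exact ⟨[(1, 1)], by simp, by simp [wd]⟩
  | of c => exact hof c
  | inv_of c _ => exact hofi c
  | mul g h hg hh =>
    obtain ⟨L, hL, rfl⟩ := hg
    obtain ⟨M, _, rfl⟩ := hh
    exact ⟨L ++ M, by simp [hL], (wd_append _ _ _ _).symm⟩

theorem lemC {g : FreeGroup (α ⊕ β)} (hg : g ≠ 1) :
    (∃ f, f ≠ 1 ∧ IsConj g (iL α β f)) ∨ (∃ h, h ≠ 1 ∧ IsConj g (iR α β h)) ∨
      ∃ L, Red L ∧ IsConj g (wd (iL α β) (iR α β) L) := by
  obtain ⟨L, hL, rfl⟩ := all_words g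
  rcases exists_reduced (iL α β) (iR α β) _ L rfl hL with ⟨f, hf⟩ | ⟨h, hh⟩ | h
  · left
    refine ⟨f, ?_, hf⟩
    rintro rfl
    rw [map_one] at hf
    exact hg (isConj_one_left.mp hf)
  · right; left
    refine ⟨h, ?_, hh⟩
    rintro rfl
    rw [map_one] at hh
    exact hg (isConj_one_left.mp hh)
  · exact Or.inr (Or.inr h)

end

end Pool.Agent.P99223
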