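import Mathlib
import Pool.Agent.Lib.P99223.Words

/-!
Commuting elements of a free group; free factors are malnormal.
-/

set_option autoImplicit false

namespace Pool.Agent.P99223

open FreeGroup (of)

section

variable {α : Type*}

theorem of_not_commute {a b : α} (hab : a ≠ b) : of a * of b ≠ of b * of a := by
  classical
  intro h
  have h1 := congrArg FreeGroup.toWord h
  simp only [FreeGroup.toWord_mul, FreeGroup.toWord_of, List.singleton_append,
    FreeGroup.reduce.cons, FreeGroup.reduce_nil] at h1
  simp [hab] at h1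

theorem exists_gen [Subsingleton α] : ∃ c : FreeGroup α, ∀ g, ∃ k : ℤ, g = c ^ k := by
  by_cases h : Nonempty α
  · obtain ⟨a⟩ := h
    refine ⟨of a, fun g => ?_⟩
    induction g using FreeGroup.induction_on with
    | C1 => exact ⟨0, by simp⟩
    | of b => exact ⟨1, by rw [Subsingleton.elim b a, zpow_one]⟩
    | inv_of b _ => exact ⟨-1, by rw [Subsingleton.elim b a, zpow_neg_one]⟩
    | mul x y hx hy =>
      obtain ⟨k, rfl⟩ := hx
      obtain ⟨l, rfl⟩ := hy
      exact ⟨k + l, by rw [zpow_add]⟩
  · refine ⟨1, fun g => ⟨0, ?_⟩⟩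
    have : IsEmpty α := not_nonempty_iff.mp h
    exact Subsingleton.elim _ _

/-- commuting elements are powers of a common element -/
theorem exists_common_root {a b : FreeGroup α} (h : a * b = b * a) :
    ∃ (c : FreeGroup α) (m k : ℤ), a = c ^ m ∧ b = c ^ k := by
  set S := Subgroup.closure ({a, b} : Set (FreeGroup α)) with hS
  have hcomm : ∀ x ∈ S, ∀ y ∈ S, x * y = y * x := by
    have hc := Subgroup.isMulCommutative_closure (k := ({a, b} : Set (FreeGroup α))) (by
      rintro x (rfl | rfl) y (rfl | rfl)
      · rfl
      · exact h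
      · exact h.symm
      · rfl)
    intro x hx y hy
    have := hc.is_comm.comm ⟨x, hx⟩ ⟨y, hy⟩
    exact congrArg Subtype.val this
  let e : FreeGroup (IsFreeGroup.Generators S) ≃* S := (IsFreeGroup.toFreeGroup S).symm
  have : Subsingleton (IsFreeGroup.Generators S) := by
    constructor
    intro x y
    by_contra hxy
    refine of_not_commute hxy (e.injective ?_)
    rw [map_mul, map_mul]
    apply Subtype.ext
    exact hcomm _ (e (of x)).2 _ (e (of y)).2
  obtain ⟨c, hc⟩ := exists_gen (α := IsFreeGroup.Generators S)
  have haS : a ∈ S := Subgroup.subset_closure (by simp)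
  have hbS : b ∈ S := Subgroup.subset_closure (by simp)
  obtain ⟨m, hm⟩ := hc (e.symm ⟨a, haS⟩)
  obtain ⟨k, hk⟩ := hc (e.symm ⟨b, hbS⟩)
  refine ⟨(e c : S), m, k, ?_, ?_⟩
  · have := congrArg (fun z => ((e z : S) : FreeGroup α)) hm
    simpa using this
  · have := congrArg (fun z => ((e z : S) : FreeGroup α)) hk
    simpa using this

/-- an element commuting with a nontrivial element of a retract lies in the retract -/
theorem mem_of_commute {β : Type*} {i : FreeGroup β →* FreeGroup α} {r : FreeGroup α →* FreeGroup β}
    (hr : ∀ f, r (i f) = f) {w : FreeGroup α} {f : FreeGroup β} (hf : f ≠ 1)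
    (h : w * i f = i f * w) : w = i (r w) := by
  obtain ⟨c, m, k, hw, hk⟩ := exists_common_root h
  have hk0 : k ≠ 0 := by
    rintro rfl
    rw [zpow_zero] at hk
    refine hf ?_
    rw [← hr f, hk, map_one]
  have hc : i (r c) = c := by
    have h1 : (i (r c)) ^ k = c ^ k := by
      rw [← map_zpow, ← map_zpow, ← hk, hr]
    exact zpow_left_injective hk0 h1
  rw [hw, map_zpow, map_zpow, hc]

end

section

variable {α β : Type*}

/-- left retraction -/
def rL (α β : Type*) : FreeGroup (α ⊕ β) →* FreeGroup α := FreeGroup.lift (Sum.elim of (fun _ => 1))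

/-- right retraction -/
def rR (α β : Type*) : FreeGroup (α ⊕ β) →* FreeGroup β := FreeGroup.lift (Sum.elim (fun _ => 1) of)

theorem rL_iL (f : FreeGroup α) : rL α β (iL α β f) = f := by
  have : (rL α β).comp (iL α β) = MonoidHom.id _ := by
    apply FreeGroup.ext_hom
    intro j
    simp [rL]
  exact DFunLike.congr_fun this f

theorem rR_iR (f : FreeGroup β) : rR α β (iR α β f) = f := by
  have : (rR α β).comp (iR α β) = MonoidHom.id _ := by
    apply FreeGroup.ext_hom
    intro j
    simp [rR]
  exact DFunLike.congr_fun this f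

theorem rL_iR (f : FreeGroup β) : rL α β (iR α β f) = 1 := by
  have : (rL α β).comp (iR α β) = 1 := by
    apply FreeGroup.ext_hom
    intro j
    simp [rL]
  exact DFunLike.congr_fun this f

theorem rR_iL (f : FreeGroup α) : rR α β (iL α β f) = 1 := by
  have : (rR α β).comp (iL α β) = 1 := by
    apply FreeGroup.ext_hom
    intro j
    simp [rR]
  exact DFunLike.congr_fun this f

end

end Pool.Agent.P99223
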