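import Mathlib

/-!
Polynomial vectors and top coefficients of polynomial matrices.
-/

set_option autoImplicit false

namespace Pool.Agent.P99223

open Polynomial Matrix

section

variable {κ : Type*} [Fintype κ]

/-- coefficient vectors -/
def lcf (n : ℕ) (v : κ → ℂ[X]) : κ → ℂ := fun i => (v i).coeff n

/-- degree bound -/
def DegLE (D : ℕ) (v : κ → ℂ[X]) : Prop := ∀ n, D < n → lcf n v = 0

theorem exists_top' {v : κ → ℂ[X]} (hv : v ≠ 0) : ∃ D, DegLE D v ∧ lcf D v ≠ 0 := by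
  classical
  obtain ⟨n, hn⟩ : ∃ n, lcf n v ≠ 0 := by
    by_contra h
    push Not at h
    refine hv ?_
    funext i
    ext n
    have := congrFun (h n) i
    simpa [lcf] using this
  set B := Finset.univ.sup (fun i => (v i).natDegree) with hB
  have hB' : ∀ n, B < n → lcf n v = 0 := by
    intro n hn
    funext i
    have h1 : (v i).natDegree ≤ B := Finset.le_sup (f := fun i => (v i).natDegree)
      (Finset.mem_univ i)
    exact Polynomial.coeff_eq_zero_of_natDegree_lt (by omega)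
  have hnB : n ≤ B := by
    by_contra h
    exact hn (hB' n (by omega))
  refine ⟨Nat.findGreatest (fun n => lcf n v ≠ 0) B, ?_, ?_⟩
  · intro m hm
    rcases le_or_gt m B with h | h
    · have := Nat.findGreatest_is_greatest hm h
      push Not at this
      exact this
    · exact hB' m h
  · exact Nat.findGreatest_spec (P := fun n => lcf n v ≠ 0) hnB hn

theorem lcf_mapC (A : Matrix κ κ ℂ) (v : κ → ℂ[X]) (n : ℕ) :
    lcf n ((A.map C) *ᵥ v) = A *ᵥ lcf n v := by
  funext i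
  simp [lcf, Matrix.mulVec, dotProduct, Polynomial.coeff_C_mul]

omit [Fintype κ] in
theorem lcf_add (v w : κ → ℂ[X]) (n : ℕ) : lcf n (v + w) = lcf n v + lcf n w := by
  funext i
  simp [lcf]

omit [Fintype κ] in
theorem lcf_X (v : κ → ℂ[X]) (n : ℕ) :
    lcf (n + 1) ((X : ℂ[X]) • v) = lcf n v := by
  funext i
  simp [lcf, Polynomial.coeff_X_mul]

omit [Fintype κ] in
theorem lcf_C_smul (c : ℂ) (v : κ → ℂ[X]) (n : ℕ) :
    lcf n ((C c : ℂ[X]) • v) = c • lcf n v := by
  funext i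
  simp [lcf]

/-- `M` has degree at most `m`, with coefficient `T` in this degree -/
def Top (m : ℕ) (M : Matrix κ κ ℂ[X]) (T : Matrix κ κ ℂ) : Prop :=
  ∀ (D : ℕ) (v : κ → ℂ[X]), DegLE D v →
    DegLE (D + m) (M *ᵥ v) ∧ lcf (D + m) (M *ᵥ v) = T *ᵥ lcf D v

theorem top_mapC (A : Matrix κ κ ℂ) : Top 0 (A.map C) A := by
  intro D v hv
  refine ⟨?_, lcf_mapC _ _ _⟩
  intro n hn
  rw [lcf_mapC, hv n hn, Matrix.mulVec_zero]

theorem top_X (A B : Matrix κ κ ℂ) : Top 1 ((X : ℂ[X]) • A.map C + B.map C) A := by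
  intro D v hv
  have key : ∀ n, D ≤ n → lcf (n + 1) (((X : ℂ[X]) • A.map C + B.map C) *ᵥ v) =
      A *ᵥ lcf n v := by
    intro n hn
    rw [Matrix.add_mulVec, lcf_add, Matrix.smul_mulVec, lcf_X, lcf_mapC, lcf_mapC,
      hv (n + 1) (by omega), Matrix.mulVec_zero, add_zero]
  refine ⟨?_, key D le_rfl⟩
  intro n hn
  obtain ⟨n', rfl⟩ : ∃ n', n = n' + 1 := ⟨n - 1, by omega⟩
  rw [key n' (by omega), hv n' (by omega), Matrix.mulVec_zero]

theorem Top.mul {m m' : ℕ} {M M' : Matrix κ κ ℂ[X]} {T T' : Matrix κ κ ℂ} (h : Top m M T)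
    (h' : Top m' M' T') : Top (m + m') (M * M') (T * T') := by
  intro D v hv
  obtain ⟨h1, h2⟩ := h' D v hv
  obtain ⟨h3, h4⟩ := h _ _ h1
  rw [← Matrix.mulVec_mulVec, ← Matrix.mulVec_mulVec, ← h2]
  have e : D + (m + m') = D + m' + m := by ring
  rw [e]
  exact ⟨h3, h4⟩

theorem top_one [DecidableEq κ] : Top 0 (1 : Matrix κ κ ℂ[X]) 1 := by
  intro D v hv
  rw [Matrix.one_mulVec, Matrix.one_mulVec]
  exact ⟨hv, rfl⟩

end

end Pool.Agent.P99223
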