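import Mathlib
import Pool.Agent.Lib.P99223.Poly
import Pool.Agent.Lib.P99223.Words

/-!
The representation of `F * H` on `K ⊕ K`: `F` is diagonal in the given decomposition, `H` in a
decomposition in generic position (polynomial in the parameter).
-/

set_option autoImplicit false

namespace Pool.Agent.P99223

open Polynomial Matrix

section blocks

variable {M : Type*} [Fintype M] [DecidableEq M]

/-- block diagonal matrices -/
def bd {F R : Type*} [Group F] [Semiring R] (a a' : F →* Matrix M M R) :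
    F →* Matrix (M ⊕ M) (M ⊕ M) R where
  toFun f := Matrix.fromBlocks (a f) 0 0 (a' f)
  map_one' := by simp
  map_mul' f g := by
    rw [Matrix.fromBlocks_multiply]
    simp

theorem bd_apply {F R : Type*} [Group F] [Semiring R] (a a' : F →* Matrix M M R) (f : F) :
    bd a a' f = Matrix.fromBlocks (a f) 0 0 (a' f) := rfl

variable (M) in
/-- change of decomposition -/
def gm {R : Type*} [CommRing R] (l : R) : Matrix (M ⊕ M) (M ⊕ M) R :=
  Matrix.fromBlocks 1 (l • 1) 1 ((l + 1) • 1)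

variable (M) in
/-- inverse of the change of decomposition -/
def gm' {R : Type*} [CommRing R] (l : R) : Matrix (M ⊕ M) (M ⊕ M) R :=
  Matrix.fromBlocks ((l + 1) • 1) (-(l • 1)) (-1) 1

theorem gm_mul {R : Type*} [CommRing R] (l : R) : gm M l * gm' M l = 1 := by
  rw [gm, gm', Matrix.fromBlocks_multiply, ← Matrix.fromBlocks_one]
  simp only [Matrix.one_mul, Matrix.mul_one, Matrix.mul_neg]
  congr 1
  · rw [add_smul, one_smul]; abel
  · abel
  · abel
  · rw [add_smul, one_smul]; abel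

theorem gm'_mul {R : Type*} [CommRing R] (l : R) : gm' M l * gm M l = 1 := by
  rw [gm, gm', Matrix.fromBlocks_multiply, ← Matrix.fromBlocks_one]
  simp only [Matrix.one_mul, Matrix.mul_one, Matrix.neg_mul]
  congr 1
  · rw [add_smul, one_smul]; abel
  · simp only [Matrix.smul_mul, Matrix.mul_smul, Matrix.one_mul, Matrix.mul_one, add_smul, one_smul]
    abel
  · abel
  · rw [add_smul, one_smul]; abel

/-- block diagonal matrices for the other decomposition -/
def bg {H R : Type*} [Group H] [CommRing R] (l : R) (b b' : H →* Matrix M M R) :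
    H →* Matrix (M ⊕ M) (M ⊕ M) R where
  toFun h := gm M l * bd b b' h * gm' M l
  map_one' := by rw [map_one, mul_one, gm_mul]
  map_mul' g h := by
    rw [map_mul]
    calc gm M l * (bd b b' g * bd b b' h) * gm' M l
        = gm M l * bd b b' g * (1 * (bd b b' h * gm' M l)) := by
          simp only [Matrix.mul_assoc, Matrix.one_mul]
      _ = _ := by
          rw [← gm'_mul l]
          simp only [Matrix.mul_assoc]

theorem bg_apply {H R : Type*} [Group H] [CommRing R] (l : R) (b b' : H →* Matrix M M R) (h : H) :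
    bg l b b' h = gm M l * bd b b' h * gm' M l := rfl

/-- the difference -/
def df {H : Type*} [Group H] (b b' : H →* Matrix M M ℂ) (h : H) : Matrix M M ℂ := b' h - b h

/-- top coefficient -/
def RR {H : Type*} [Group H] (b b' : H →* Matrix M M ℂ) (h : H) : Matrix (M ⊕ M) (M ⊕ M) ℂ :=
  Matrix.fromBlocks (-df b b' h) (df b b' h) (-df b b' h) (df b b' h)

/-- constants -/
noncomputable def cst {H : Type*} [Group H] (b : H →* Matrix M M ℂ) : H →* Matrix M M ℂ[X] :=
  (((C : ℂ →+* ℂ[X]).mapMatrix : Matrix M M ℂ →+* Matrix M M ℂ[X]) :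
    Matrix M M ℂ →* Matrix M M ℂ[X]).comp b

theorem cst_apply {H : Type*} [Group H] (b : H →* Matrix M M ℂ) (h : H) :
    cst b h = (b h).map C := rfl

theorem top_bd {F : Type*} [Group F] (a a' : F →* Matrix M M ℂ) (f : F) :
    Top 0 (bd (cst a) (cst a') f) (bd a a' f) := by
  have : bd (cst a) (cst a') f = (bd a a' f).map C := by
    rw [bd_apply, bd_apply, Matrix.fromBlocks_map, cst_apply, cst_apply]
    congr 1 <;> (ext i j; simp)
  rw [this]
  exact top_mapC _

theorem top_bg {H : Type*} [Group H] (b b' : H →* Matrix M M ℂ) (h : H) :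
    Top 1 (bg (X : ℂ[X]) (cst b) (cst b') h) (RR b b' h) := by
  have : bg (X : ℂ[X]) (cst b) (cst b') h = (X : ℂ[X]) • (RR b b' h).map C +
      (Matrix.fromBlocks (b h) 0 (-df b b' h) (b' h)).map C := by
    rw [bg_apply, bd_apply, gm, gm', Matrix.fromBlocks_multiply, Matrix.fromBlocks_multiply, RR,
      Matrix.fromBlocks_map, Matrix.fromBlocks_map, Matrix.fromBlocks_smul, Matrix.fromBlocks_add,
      cst_apply, cst_apply]
    congr 1
    · refine Matrix.ext fun i j => ?_
      simp [df]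
      ring
    · refine Matrix.ext fun i j => ?_
      simp [df]
      ring
    · refine Matrix.ext fun i j => ?_
      simp [df]
      ring
    · refine Matrix.ext fun i j => ?_
      simp [df]
      ring
  rw [this]
  exact top_X _ _

end blocks

section words

variable {M : Type*} [Fintype M] [DecidableEq M] {F H : Type*} [Group F] [Group H]
  (a a' : F →* Matrix M M ℂ) (b b' : H →* Matrix M M ℂ)

/-- top coefficient of a word -/
def TL : List (F × H) → Matrix (M ⊕ M) (M ⊕ M) ℂ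
  | [] => 1
  | x :: L => bd a a' x.1 * RR b b' x.2 * TL L

/-- top coefficient of the inverse of a word -/
def TL' : List (F × H) → Matrix (M ⊕ M) (M ⊕ M) ℂ
  | [] => 1
  | x :: L => TL' L * (RR b b' x.2⁻¹ * bd a a' x.1⁻¹)

/-- difference of the components -/
def dl (u : M ⊕ M → ℂ) : M → ℂ := u ∘ Sum.inr - u ∘ Sum.inl

theorem RR_mulVec (h : H) (u : M ⊕ M → ℂ) : RR b b' h *ᵥ u =
    Sum.elim (df b b' h *ᵥ dl u) (df b b' h *ᵥ dl u) := by
  rw [RR, Matrix.fromBlocks_mulVec, dl, Matrix.mulVec_sub, Matrix.neg_mulVec]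
  congr 1 <;> abel

theorem dl_bd (f : F) (y : M → ℂ) :
    dl (bd a a' f *ᵥ Sum.elim y y) = df a a' f *ᵥ y := by
  rw [bd_apply, Matrix.fromBlocks_mulVec, dl, df, Matrix.sub_mulVec]
  simp

omit [Fintype M] [DecidableEq M] in
theorem eq_elim_of_dl {u : M ⊕ M → ℂ} (h : dl u = 0) : u = Sum.elim (u ∘ Sum.inl) (u ∘ Sum.inl) := by
  funext i
  rcases i with i | i
  · rfl
  · have := congrFun h i
    simp only [dl, Pi.sub_apply, Function.comp_apply, Pi.zero_apply, sub_eq_zero] at this
    simp [this]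

/-- the separation condition -/
def Sep (a a' : F →* Matrix M M ℂ) : Prop := ∀ f : F, f ≠ 1 → ∀ u, df a a' f *ᵥ u = 0 → u = 0

variable {a a' b b'}

theorem dl_eq_zero (hb : Sep b b') {h : H} (hh : h ≠ 1) {u : M ⊕ M → ℂ}
    (hu : RR b b' h *ᵥ u = 0) : dl u = 0 := by
  rw [RR_mulVec] at hu
  refine hb h hh _ ?_
  have := congrArg (fun w => w ∘ Sum.inl) hu
  simpa using this

theorem bd_mulVec_eq_zero {f : F} {u : M ⊕ M → ℂ} (hu : bd a a' f *ᵥ u = 0) : u = 0 := by
  have := congrArg (fun w => bd a a' f⁻¹ *ᵥ w) hu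
  simp only [Matrix.mulVec_mulVec, Matrix.mulVec_zero] at this
  rwa [← map_mul, inv_mul_cancel, map_one, Matrix.one_mulVec] at this

theorem TL_zero' (ha : Sep a a') (hb : Sep b b') : ∀ (L : List (F × H)),
    (∀ x ∈ L.tail, x.1 ≠ 1) → (∀ x ∈ L, x.2 ≠ 1) → ∀ u, TL a a' b b' L *ᵥ u = 0 → dl u = 0
  | [], _, _, u, hu => by
    rw [TL, Matrix.one_mulVec] at hu
    rw [hu, dl]
    simp
  | [x], _, h2, u, hu => by
    rw [TL, TL, Matrix.mul_one, ← Matrix.mulVec_mulVec] at hu
    exact dl_eq_zero hb (h2 x (by simp)) (bd_mulVec_eq_zero hu)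
  | x :: y :: L, h1, h2, u, hu => by
    rw [TL, Matrix.mul_assoc, ← Matrix.mulVec_mulVec, ← Matrix.mulVec_mulVec] at hu
    have h3 := dl_eq_zero hb (h2 x (by simp)) (bd_mulVec_eq_zero hu)
    refine TL_zero' ha hb (y :: L) (fun z hz => h1 z (by
        rw [List.tail_cons] at hz ⊢; exact List.mem_cons_of_mem _ hz))
      (fun z hz => h2 z (List.mem_cons_of_mem _ hz)) u ?_
    rw [TL, Matrix.mul_assoc, ← Matrix.mulVec_mulVec, ← Matrix.mulVec_mulVec, RR_mulVec] at h3 ⊢
    rw [dl_bd] at h3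
    rw [ha y.1 (h1 y (by simp)) _ h3]
    simp

theorem TL_zero (ha : Sep a a') (hb : Sep b b') (L : List (F × H))
    (h1 : ∀ x ∈ L, x.1 ≠ 1) (h2 : ∀ x ∈ L, x.2 ≠ 1) (u : M ⊕ M → ℂ)
    (h : TL a a' b b' L *ᵥ u = 0) : dl u = 0 :=
  TL_zero' ha hb L (fun x hx => h1 x (List.mem_of_mem_tail hx)) h2 u h

theorem TL'_zero (ha : Sep a a') (hb : Sep b b') : ∀ (L : List (F × H)) (x : F × H),
    (∀ z ∈ x :: L, z.1 ≠ 1) → (∀ z ∈ x :: L, z.2 ≠ 1) → ∀ u, TL' a a' b b' (x :: L) *ᵥ u = 0 →
      dl (bd a a' x.1⁻¹ *ᵥ u) = 0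
  | [], x, _, h2, u, hu => by
    rw [TL', TL', Matrix.one_mul, ← Matrix.mulVec_mulVec] at hu
    exact dl_eq_zero hb (inv_ne_one.mpr (h2 x (by simp))) hu
  | y :: L, x, h1, h2, u, hu => by
    rw [TL', ← Matrix.mulVec_mulVec] at hu
    have h3 := TL'_zero ha hb L y (fun z hz => h1 z (List.mem_cons_of_mem _ hz))
      (fun z hz => h2 z (List.mem_cons_of_mem _ hz)) _ hu
    rw [← Matrix.mulVec_mulVec, RR_mulVec, dl_bd] at h3
    have h4 := ha y.1⁻¹ (inv_ne_one.mpr (h1 y (by simp))) _ h3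
    exact hb x.2⁻¹ (inv_ne_one.mpr (h2 x (by simp))) _ h4

theorem top_zero (ha : Sep a a') (hb : Sep b b') {L : List (F × H)} (hL : Red L)
    {u : M ⊕ M → ℂ} (h1 : TL a a' b b' L *ᵥ u = 0) (h2 : TL' a a' b b' L *ᵥ u = 0) : u = 0 := by
  have h3 := TL_zero ha hb L hL.fst hL.snd u h1
  obtain ⟨x, N, rfl⟩ := List.exists_cons_of_ne_nil hL.ne
  have h4 := TL'_zero ha hb N x hL.fst hL.snd u h2
  rw [eq_elim_of_dl h3, dl_bd] at h4
  rw [eq_elim_of_dl h3, ha x.1⁻¹ (inv_ne_one.mpr (hL.fst x (by simp))) _ h4]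
  simp

end words

section rep

variable {M : Type*} [Fintype M] [DecidableEq M] {α β : Type*}
  (a a' : FreeGroup α →* Matrix M M ℂ) (b b' : FreeGroup β →* Matrix M M ℂ)

/-- the representation over a commutative ring -/
def rhoR {R : Type*} [CommRing R] (l : R) (a a' : FreeGroup α →* Matrix M M R)
    (b b' : FreeGroup β →* Matrix M M R) :
    FreeGroup (α ⊕ β) →* (Matrix (M ⊕ M) (M ⊕ M) R)ˣ :=
  FreeGroup.lift (Sum.elim (fun i => (bd a a').toHomUnits (FreeGroup.of i))
    (fun j => (bg l b b').toHomUnits (FreeGroup.of j)))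

theorem rhoR_iL {R : Type*} [CommRing R] (l : R) (a a' : FreeGroup α →* Matrix M M R)
    (b b' : FreeGroup β →* Matrix M M R) (f : FreeGroup α) :
    rhoR l a a' b b' (iL α β f) = (bd a a').toHomUnits f := by
  have : (rhoR l a a' b b').comp (iL α β) = (bd a a').toHomUnits := by
    apply FreeGroup.ext_hom
    intro j
    simp [rhoR]
  exact DFunLike.congr_fun this f

theorem rhoR_iR {R : Type*} [CommRing R] (l : R) (a a' : FreeGroup α →* Matrix M M R)
    (b b' : FreeGroup β →* Matrix M M R) (h : FreeGroup β) :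
    rhoR l a a' b b' (iR α β h) = (bg l b b').toHomUnits h := by
  have : (rhoR l a a' b b').comp (iR α β) = (bg l b b').toHomUnits := by
    apply FreeGroup.ext_hom
    intro j
    simp [rhoR]
  exact DFunLike.congr_fun this h

omit [Fintype M] in
theorem gm_map (l : ℂ) : (gm M (X : ℂ[X])).map (eval l) = gm M l := by
  rw [gm, gm, Matrix.fromBlocks_map]
  congr 1 <;>
  · refine Matrix.ext fun i j => ?_
    by_cases hij : i = j
    · subst hij; simp
    · simp [Matrix.one_apply_ne hij]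

omit [Fintype M] in
theorem gm'_map (l : ℂ) : (gm' M (X : ℂ[X])).map (eval l) = gm' M l := by
  rw [gm', gm', Matrix.fromBlocks_map]
  congr 1 <;>
  · refine Matrix.ext fun i j => ?_
    by_cases hij : i = j
    · subst hij; simp
    · simp [Matrix.one_apply_ne hij]

theorem map_eval_mul {N : Type*} [Fintype N] (l : ℂ) (A B : Matrix N N ℂ[X]) :
    (A * B).map (eval l) = A.map (eval l) * B.map (eval l) := by
  have := Matrix.map_mul (L := A) (M := B) (f := evalRingHom l)
  simpa using this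

theorem map_eval_bd {F : Type*} [Group F] (a a' : F →* Matrix M M ℂ) (l : ℂ) (f : F) :
    (bd (cst a) (cst a') f).map (eval l) = bd a a' f := by
  rw [bd_apply, bd_apply, Matrix.fromBlocks_map, cst_apply, cst_apply]
  congr 1 <;> (ext i j; simp)

theorem rho_eval (l : ℂ) (w : FreeGroup (α ⊕ β)) :
    (rhoR (X : ℂ[X]) (cst a) (cst a') (cst b) (cst b') w : Matrix (M ⊕ M) (M ⊕ M) ℂ[X]).map (eval l) =
      (rhoR l a a' b b' w : Matrix (M ⊕ M) (M ⊕ M) ℂ) := by
  have : (Units.map (((evalRingHom l).mapMatrix : Matrix (M ⊕ M) (M ⊕ M) ℂ[X] →+*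
      Matrix (M ⊕ M) (M ⊕ M) ℂ) : Matrix (M ⊕ M) (M ⊕ M) ℂ[X] →*
      Matrix (M ⊕ M) (M ⊕ M) ℂ)).comp (rhoR (X : ℂ[X]) (cst a) (cst a') (cst b) (cst b')) =
      rhoR l a a' b b' := by
    apply FreeGroup.ext_hom
    rintro (i | j)
    · apply Units.ext
      have h := map_eval_bd a a' l (FreeGroup.of i)
      simpa [rhoR] using h
    · apply Units.ext
      have h : (bg (X : ℂ[X]) (cst b) (cst b') (FreeGroup.of j)).map (eval l) =
          bg l b b' (FreeGroup.of j) := by
        rw [bg_apply, bg_apply, map_eval_mul, map_eval_mul, gm_map, gm'_map, map_eval_bd]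
      simpa [rhoR] using h
  exact congrArg Units.val (DFunLike.congr_fun this w)

theorem top_wd : ∀ L : List (FreeGroup α × FreeGroup β),
    Top L.length (rhoR (X : ℂ[X]) (cst a) (cst a') (cst b) (cst b') (wd (iL α β) (iR α β) L) :
      Matrix (M ⊕ M) (M ⊕ M) ℂ[X]) (TL a a' b b' L)
  | [] => by
    simp only [wd, List.map_nil, List.prod_nil, map_one, Units.val_one, List.length_nil, TL]
    exact top_one
  | x :: L => by
    rw [wd_cons, map_mul, map_mul, rhoR_iL, rhoR_iR, Units.val_mul, Units.val_mul, TL,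
      List.length_cons]
    have h := ((top_bd a a' x.1).mul (top_bg b b' x.2)).mul (top_wd L)
    have e : 0 + 1 + L.length = L.length + 1 := by ring
    rw [e] at h
    exact h

theorem top_wd' : ∀ L : List (FreeGroup α × FreeGroup β),
    Top L.length (rhoR (X : ℂ[X]) (cst a) (cst a') (cst b) (cst b') (wd (iL α β) (iR α β) L)⁻¹ :
      Matrix (M ⊕ M) (M ⊕ M) ℂ[X]) (TL' a a' b b' L)
  | [] => by
    simp only [wd, List.map_nil, List.prod_nil, inv_one, map_one, Units.val_one, List.length_nil,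
      TL']
    exact top_one
  | x :: L => by
    rw [wd_cons, _root_.mul_inv_rev, _root_.mul_inv_rev, map_mul, map_mul, ← map_inv (iL α β),
      ← map_inv (iR α β), rhoR_iL, rhoR_iR, Units.val_mul, Units.val_mul, TL', List.length_cons]
    have h := (top_wd' L).mul ((top_bg b b' x.2⁻¹).mul (top_bd a a' x.1⁻¹))
    have e : L.length + (1 + 0) = L.length + 1 := by ring
    rw [e] at h
    exact h

variable {a a' b b'}

theorem det_ne_zero (ha : Sep a a') (hb : Sep b b') {L : List (FreeGroup α × FreeGroup β)}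
    (hL : Red L) {μ : ℂ} (hμ : μ ≠ 0) :
    ((rhoR (X : ℂ[X]) (cst a) (cst a') (cst b) (cst b') (wd (iL α β) (iR α β) L) :
      Matrix (M ⊕ M) (M ⊕ M) ℂ[X]) - (C μ : ℂ[X]) • 1).det ≠ 0 := by
  intro h
  obtain ⟨v, hv, hMv⟩ := Matrix.exists_mulVec_eq_zero_iff.mpr h
  obtain ⟨D, hD, hD0⟩ := exists_top' hv
  have hl : 0 < L.length := List.length_pos_iff.mpr hL.ne
  rw [Matrix.sub_mulVec, Matrix.smul_mulVec, Matrix.one_mulVec, sub_eq_zero] at hMv
  obtain ⟨-, h2⟩ := top_wd a a' b b' L D v hD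
  obtain ⟨-, h4⟩ := top_wd' a a' b b' L D v hD
  refine hD0 (top_zero ha hb hL ?_ ?_)
  · rw [← h2, hMv, lcf_C_smul, hD _ (by omega), smul_zero]
  · have h5 : v = (C μ : ℂ[X]) • ((rhoR (X : ℂ[X]) (cst a) (cst a') (cst b) (cst b')
        (wd (iL α β) (iR α β) L)⁻¹ : Matrix (M ⊕ M) (M ⊕ M) ℂ[X]) *ᵥ v) := by
      rw [← Matrix.mulVec_smul, ← hMv, Matrix.mulVec_mulVec, ← Units.val_mul, ← map_mul,
        inv_mul_cancel, map_one, Units.val_one, Matrix.one_mulVec]
    have h7 := congrArg (lcf (D + L.length)) h5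
    rw [lcf_C_smul, h4, hD _ (by omega)] at h7
    exact (smul_eq_zero.mp h7.symm).resolve_left hμ

theorem finite_bad (ha : Sep a a') (hb : Sep b b') {L : List (FreeGroup α × FreeGroup β)}
    (hL : Red L) {μ : ℂ} (hμ : μ ≠ 0) :
    {l : ℂ | ((rhoR l a a' b b' (wd (iL α β) (iR α β) L) : Matrix (M ⊕ M) (M ⊕ M) ℂ) -
      μ • 1).det = 0}.Finite := by
  refine (Polynomial.finite_setOfPred_isRoot (det_ne_zero ha hb hL hμ)).subset ?_
  intro l hdet
  rw [Set.mem_ofPred_eq] at hdet
  rw [Set.mem_ofPred_eq, IsRoot.def]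
  set N := (rhoR (X : ℂ[X]) (cst a) (cst a') (cst b) (cst b') (wd (iL α β) (iR α β) L) :
      Matrix (M ⊕ M) (M ⊕ M) ℂ[X]) - (C μ : ℂ[X]) • 1 with hN
  have h1 : eval l N.det = (N.map (eval l)).det := by
    have := RingHom.map_det (evalRingHom l) N
    simpa using this
  have h2 : N.map (eval l) = (rhoR l a a' b b' (wd (iL α β) (iR α β) L) :
      Matrix (M ⊕ M) (M ⊕ M) ℂ) - μ • 1 := by
    rw [← rho_eval a a' b b' l, hN]
    ext i j
    by_cases hij : i = j
    · subst hij
      simp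
    · simp [Matrix.one_apply_ne hij]
  rw [h1, h2, hdet]

end rep

end Pool.Agent.P99223
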