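import Mathlib
import Pool.Agent.Lib.P99223.Alg
import Pool.Agent.Lib.P99223.Rep

/-!
Choice of the parameters.
-/

set_option autoImplicit false

namespace Pool.Agent.P99223

open Matrix Kronecker Polynomial

section

variable (ι κ : Type*) [Fintype ι] [DecidableEq ι] [Fintype κ] [DecidableEq κ]

/-- `A ↦ A ⊗ 1` -/
def kl : Matrix ι ι ℂ →* Matrix (ι × κ) (ι × κ) ℂ where
  toFun A := A ⊗ₖ (1 : Matrix κ κ ℂ)
  map_one' := by simp
  map_mul' A B := by rw [← Matrix.mul_kronecker_mul, mul_one]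

/-- `B ↦ 1 ⊗ B` -/
def kr : Matrix κ κ ℂ →* Matrix (ι × κ) (ι × κ) ℂ where
  toFun B := (1 : Matrix ι ι ℂ) ⊗ₖ B
  map_one' := by simp
  map_mul' A B := by rw [← Matrix.mul_kronecker_mul, mul_one]

/-- index type of `K` -/
abbrev KI (ι κ : Type*) := (ι × ι) × (κ × κ)

variable {ι κ} {F H : Type*} [Group F] [Group H]

variable (κ) in
/-- the actions of `F` on `K` -/
def aa (σ : F →* (Matrix ι ι ℂ)ˣ) : F →* Matrix (KI ι κ) (KI ι κ) ℂ :=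
  (kl (ι × ι) (κ × κ)).comp ((kl ι ι).comp ((Units.coeHom _).comp σ))

variable (κ) in
/-- the actions of `F` on `K` -/
def aa' (σ : F →* (Matrix ι ι ℂ)ˣ) : F →* Matrix (KI ι κ) (KI ι κ) ℂ :=
  (kl (ι × ι) (κ × κ)).comp ((kr ι ι).comp ((Units.coeHom _).comp σ))

variable (ι) in
/-- the actions of `H` on `K` -/
def bb (σ : H →* (Matrix κ κ ℂ)ˣ) : H →* Matrix (KI ι κ) (KI ι κ) ℂ :=
  (kr (ι × ι) (κ × κ)).comp ((kl κ κ).comp ((Units.coeHom _).comp σ))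

variable (ι) in
/-- the actions of `H` on `K` -/
def bb' (σ : H →* (Matrix κ κ ℂ)ˣ) : H →* Matrix (KI ι κ) (KI ι κ) ℂ :=
  (kr (ι × ι) (κ × κ)).comp ((kr κ κ).comp ((Units.coeHom _).comp σ))

theorem aa_apply (σ : F →* (Matrix ι ι ℂ)ˣ) (f : F) :
    aa κ σ f = ((σ f : Matrix ι ι ℂ) ⊗ₖ (1 : Matrix ι ι ℂ)) ⊗ₖ (1 : Matrix (κ × κ) (κ × κ) ℂ) := rfl

theorem aa'_apply (σ : F →* (Matrix ι ι ℂ)ˣ) (f : F) :
    aa' κ σ f = ((1 : Matrix ι ι ℂ) ⊗ₖ (σ f : Matrix ι ι ℂ)) ⊗ₖ (1 : Matrix (κ × κ) (κ × κ) ℂ) := rfl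

theorem bb_apply (σ : H →* (Matrix κ κ ℂ)ˣ) (h : H) :
    bb ι σ h = (1 : Matrix (ι × ι) (ι × ι) ℂ) ⊗ₖ ((σ h : Matrix κ κ ℂ) ⊗ₖ (1 : Matrix κ κ ℂ)) := rfl

theorem bb'_apply (σ : H →* (Matrix κ κ ℂ)ˣ) (h : H) :
    bb' ι σ h = (1 : Matrix (ι × ι) (ι × ι) ℂ) ⊗ₖ ((1 : Matrix κ κ ℂ) ⊗ₖ (σ h : Matrix κ κ ℂ)) := rfl

theorem sep_aa {σ σ' : F →* (Matrix ι ι ℂ)ˣ}
    (h : ∀ f, f ≠ 1 → Disj (σ f : Matrix ι ι ℂ) (σ' f : Matrix ι ι ℂ)) :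
    Sep (aa κ σ) (aa' κ σ') := by
  intro f hf u hu
  refine sub_mulVec_injective (a := aa κ σ f) (b := aa' κ σ' f) ?_ ?_ hu
  · rw [aa_apply, aa'_apply, ← Matrix.mul_kronecker_mul, ← Matrix.mul_kronecker_mul,
      ← Matrix.mul_kronecker_mul, ← Matrix.mul_kronecker_mul]
    simp only [mul_one, one_mul]
  · exact (h f hf).kron_mix.kron_left

theorem sep_bb {σ σ' : H →* (Matrix κ κ ℂ)ˣ}
    (h : ∀ f, f ≠ 1 → Disj (σ f : Matrix κ κ ℂ) (σ' f : Matrix κ κ ℂ)) :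
    Sep (bb ι σ) (bb' ι σ') := by
  intro f hf u hu
  refine sub_mulVec_injective (a := bb ι σ f) (b := bb' ι σ' f) ?_ ?_ hu
  · rw [bb_apply, bb'_apply, ← Matrix.mul_kronecker_mul, ← Matrix.mul_kronecker_mul,
      ← Matrix.mul_kronecker_mul, ← Matrix.mul_kronecker_mul]
    simp only [mul_one, one_mul]
  · exact (h f hf).kron_mix.kron_right

end

section

variable {ι κ : Type*} [Fintype ι] [DecidableEq ι] [Fintype κ] [DecidableEq κ]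
  {α β : Type*}

/-- index type of `K ⊕ K` -/
abbrev WI (ι κ : Type*) := KI ι κ ⊕ KI ι κ

/-- the representation with index `y` -/
def rep (σ : ℕ → FreeGroup α →* (Matrix ι ι ℂ)ˣ) (ς : ℕ → FreeGroup β →* (Matrix κ κ ℂ)ˣ)
    (y : ℕ × ℂ) : FreeGroup (α ⊕ β) →* (Matrix (WI ι κ) (WI ι κ) ℂ)ˣ :=
  rhoR y.2 (aa κ (σ (2 * y.1))) (aa' κ (σ (2 * y.1 + 1))) (bb ι (ς (2 * y.1)))
    (bb' ι (ς (2 * y.1 + 1)))

/-- pairwise disjoint families -/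
def PD {F ι : Type*} [Group F] [Fintype ι] [DecidableEq ι] (σ : ℕ → F →* (Matrix ι ι ℂ)ˣ) : Prop :=
  ∀ s t, s ≠ t → ∀ f, f ≠ 1 → Disj (σ s f : Matrix ι ι ℂ) (σ t f : Matrix ι ι ℂ)

theorem exists_param [Countable α] [Countable β] {σ : ℕ → FreeGroup α →* (Matrix ι ι ℂ)ˣ}
    {ς : ℕ → FreeGroup β →* (Matrix κ κ ℂ)ˣ} (hσ : PD σ) (hς : PD ς) (S : Finset (ℕ × ℂ)) :
    ∃ y : ℕ × ℂ, ∀ x ∈ S, x.1 < y.1 ∧ ∀ L, Red L →
      Disj (rep σ ς x (wd (iL α β) (iR α β) L) : Matrix (WI ι κ) (WI ι κ) ℂ)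
        (rep σ ς y (wd (iL α β) (iR α β) L) : Matrix (WI ι κ) (WI ι κ) ℂ) := by
  classical
  set b := S.sup Prod.fst + 1 with hb
  have h1 : Sep (aa κ (σ (2 * b))) (aa' κ (σ (2 * b + 1))) := sep_aa (hσ _ _ (by omega))
  have h2 : Sep (bb ι (ς (2 * b))) (bb' ι (ς (2 * b + 1))) := sep_bb (hς _ _ (by omega))
  set Bad : List (FreeGroup α × FreeGroup β) → ℂ → Set ℂ := fun L μ =>
    {l : ℂ | ((rep σ ς (b, l) (wd (iL α β) (iR α β) L) : Matrix (WI ι κ) (WI ι κ) ℂ) -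
      μ • 1).det = 0} with hBad
  set bad : Set ℂ := ⋃ x ∈ S, ⋃ L ∈ {L : List (FreeGroup α × FreeGroup β) | Red L},
    ⋃ μ ∈ {μ : ℂ | (rep σ ς x (wd (iL α β) (iR α β) L) :
          Matrix (WI ι κ) (WI ι κ) ℂ).charpoly.IsRoot μ}, Bad L μ with hbad
  have hcount : bad.Countable := by
    refine S.countable_toSet.biUnion fun x _ => ?_
    refine (Set.to_countable _).biUnion fun L hL => ?_
    refine (Polynomial.finite_setOfPred_isRoot (Matrix.charpoly_monic _).ne_zero).countable.biUnion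
      fun μ hμ => ?_
    exact (finite_bad h1 h2 hL (root_ne_zero _ hμ)).countable
  obtain ⟨q, hq⟩ := (hcount.dense_compl ℂ).nonempty
  refine ⟨(b, q), fun x hx => ⟨?_, fun L hL => ?_⟩⟩
  · exact Nat.lt_succ_of_le (Finset.le_sup (f := Prod.fst) hx)
  · refine disj_of_eig fun μ h1 h2 => hq ?_
    simp only [hbad, Set.mem_iUnion]
    exact ⟨x, hx, L, hL, μ, h1, det_sub_of_root h2⟩

variable (M : Type*) [Fintype M] [DecidableEq M] in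
/-- change of decomposition as a unit -/
def gmU (l : ℂ) : (Matrix (M ⊕ M) (M ⊕ M) ℂ)ˣ := ⟨gm M l, gm' M l, gm_mul l, gm'_mul l⟩

theorem rep_iL (σ : ℕ → FreeGroup α →* (Matrix ι ι ℂ)ˣ) (ς : ℕ → FreeGroup β →* (Matrix κ κ ℂ)ˣ)
    (y : ℕ × ℂ) (f : FreeGroup α) : (rep σ ς y (iL α β f) : Matrix (WI ι κ) (WI ι κ) ℂ) =
      Matrix.fromBlocks (aa κ (σ (2 * y.1)) f) 0 0 (aa' κ (σ (2 * y.1 + 1)) f) := by
  rw [rep, rhoR_iL]
  rfl

theorem rep_iR (σ : ℕ → FreeGroup α →* (Matrix ι ι ℂ)ˣ) (ς : ℕ → FreeGroup β →* (Matrix κ κ ℂ)ˣ)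
    (y : ℕ × ℂ) (h : FreeGroup β) : (rep σ ς y (iR α β h) : Matrix (WI ι κ) (WI ι κ) ℂ) =
      (gmU (KI ι κ) y.2 : Matrix (WI ι κ) (WI ι κ) ℂ) *
        Matrix.fromBlocks (bb ι (ς (2 * y.1)) h) 0 0 (bb' ι (ς (2 * y.1 + 1)) h) *
        (↑(gmU (KI ι κ) y.2)⁻¹ : Matrix (WI ι κ) (WI ι κ) ℂ) := by
  rw [rep, rhoR_iR]
  rfl

/-- the family of representations of `F * H` -/
theorem exists_family [Countable α] [Countable β] {σ : ℕ → FreeGroup α →* (Matrix ι ι ℂ)ˣ}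
    {ς : ℕ → FreeGroup β →* (Matrix κ κ ℂ)ˣ} (hσ : PD σ) (hς : PD ς) :
    ∃ y : ℕ → ℕ × ℂ, PD (fun t => rep σ ς (y t)) := by
  obtain ⟨y, -, hy⟩ := exists_seq_of_forall_finset_exists (fun _ : ℕ × ℂ => True)
    (fun x y => x.1 < y.1 ∧ ∀ L, Red L →
      Disj (rep σ ς x (wd (iL α β) (iR α β) L) : Matrix (WI ι κ) (WI ι κ) ℂ)
        (rep σ ς y (wd (iL α β) (iR α β) L) : Matrix (WI ι κ) (WI ι κ) ℂ)) (fun S _ => by
      obtain ⟨y, hy⟩ := exists_param hσ hς S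
      exact ⟨y, trivial, hy⟩)
  refine ⟨y, ?_⟩
  have key : ∀ s t, s < t → ∀ g : FreeGroup (α ⊕ β), g ≠ 1 →
      Disj (rep σ ς (y s) g : Matrix (WI ι κ) (WI ι κ) ℂ)
        (rep σ ς (y t) g : Matrix (WI ι κ) (WI ι κ) ℂ) := by
    intro s t hst g hg
    obtain ⟨h1, h2⟩ := hy s t hst
    rcases lemC hg with ⟨f, hf, hc⟩ | ⟨h, hh, hc⟩ | ⟨L, hL, hc⟩
    · refine disj_of_isConj hc ?_
      rw [rep_iL, rep_iL]
      exact Disj.blocks (hσ _ _ (by omega) f hf).kron_left.kron_left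
        (hσ _ _ (by omega) f hf).kron_mix.kron_left
        (hσ _ _ (by omega) f hf).kron_mix.kron_left.symm
        (hσ _ _ (by omega) f hf).kron_right.kron_left
    · refine disj_of_isConj hc ?_
      rw [rep_iR, rep_iR]
      refine Disj.conj ?_ _ _
      exact Disj.blocks (hς _ _ (by omega) h hh).kron_left.kron_right
        (hς _ _ (by omega) h hh).kron_mix.kron_right
        (hς _ _ (by omega) h hh).kron_mix.kron_right.symm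
        (hς _ _ (by omega) h hh).kron_right.kron_right
    · exact disj_of_isConj hc (h2 L hL)
  intro s t hst g hg
  rcases lt_or_gt_of_ne hst with h | h
  · exact key s t h g hg
  · exact (key t s h g hg).symm

end

end Pool.Agent.P99223
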