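import Mathlib
import Pool.Agent.Lib.P99223.Generic
import Pool.Agent.Lib.P99223.Cent

/-!
The group `(F * H) ⋊ (Γ₁ × Γ₂)` of automorphisms of `F * H`, and its representations.
-/

set_option autoImplicit false

namespace Pool.Agent.P99223

open FreeGroup (of)
open Matrix Kronecker

section

variable {α β : Type*}

theorem hom_ext' {H : Type*} [Monoid H] {f g : FreeGroup (α ⊕ β) →* H}
    (h1 : f.comp (iL α β) = g.comp (iL α β)) (h2 : f.comp (iR α β) = g.comp (iR α β)) : f = g := by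
  apply FreeGroup.ext_hom
  rintro (a | b)
  · have := DFunLike.congr_fun h1 (of a)
    simpa using this
  · have := DFunLike.congr_fun h2 (of b)
    simpa using this

/-- the endomorphism of `F * H` given by endomorphisms of the factors -/
def extF (φ : FreeGroup α →* FreeGroup α) (ψ : FreeGroup β →* FreeGroup β) :
    FreeGroup (α ⊕ β) →* FreeGroup (α ⊕ β) :=
  FreeGroup.lift (Sum.elim (fun a => iL α β (φ (of a))) (fun b => iR α β (ψ (of b))))

theorem extF_iL (φ : FreeGroup α →* FreeGroup α) (ψ : FreeGroup β →* FreeGroup β)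
    (f : FreeGroup α) : extF φ ψ (iL α β f) = iL α β (φ f) := by
  have : (extF φ ψ).comp (iL α β) = (iL α β).comp φ := by
    apply FreeGroup.ext_hom
    intro j
    simp [extF]
  exact DFunLike.congr_fun this f

theorem extF_iR (φ : FreeGroup α →* FreeGroup α) (ψ : FreeGroup β →* FreeGroup β)
    (f : FreeGroup β) : extF φ ψ (iR α β f) = iR α β (ψ f) := by
  have : (extF φ ψ).comp (iR α β) = (iR α β).comp ψ := by
    apply FreeGroup.ext_hom
    intro j
    simp [extF]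
  exact DFunLike.congr_fun this f

theorem extF_comp (φ φ' : FreeGroup α →* FreeGroup α) (ψ ψ' : FreeGroup β →* FreeGroup β) :
    (extF φ ψ).comp (extF φ' ψ') = extF (φ.comp φ') (ψ.comp ψ') := by
  refine hom_ext' ?_ ?_
  · apply MonoidHom.ext
    intro f
    simp only [MonoidHom.comp_apply]
    rw [extF_iL, extF_iL, extF_iL, MonoidHom.comp_apply]
  · apply MonoidHom.ext
    intro f
    simp only [MonoidHom.comp_apply]
    rw [extF_iR, extF_iR, extF_iR, MonoidHom.comp_apply]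

theorem extF_id : extF (MonoidHom.id (FreeGroup α)) (MonoidHom.id (FreeGroup β)) =
    MonoidHom.id _ := by
  refine hom_ext' ?_ ?_
  · apply MonoidHom.ext
    intro f
    simp only [MonoidHom.comp_apply]
    rw [extF_iL]; rfl
  · apply MonoidHom.ext
    intro f
    simp only [MonoidHom.comp_apply]
    rw [extF_iR]; rfl

theorem symm_comp {F : Type*} [Group F] (φ : MulAut F) :
    φ.symm.toMonoidHom.comp φ.toMonoidHom = MonoidHom.id _ := by
  ext; simp

theorem comp_symm {F : Type*} [Group F] (φ : MulAut F) :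
    φ.toMonoidHom.comp φ.symm.toMonoidHom = MonoidHom.id _ := by
  ext; simp

variable (α β) in
/-- the automorphism of `F * H` given by automorphisms of the factors -/
def ext : MulAut (FreeGroup α) × MulAut (FreeGroup β) →* MulAut (FreeGroup (α ⊕ β)) where
  toFun φ := MonoidHom.toMulEquiv (extF φ.1.toMonoidHom φ.2.toMonoidHom)
    (extF φ.1.symm.toMonoidHom φ.2.symm.toMonoidHom)
    (by rw [extF_comp, symm_comp, symm_comp, extF_id])
    (by rw [extF_comp, comp_symm, comp_symm, extF_id])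
  map_one' := by
    ext x
    change extF (MonoidHom.id _) (MonoidHom.id _) x = x
    rw [extF_id]; rfl
  map_mul' φ ψ := by
    ext x
    change extF (φ.1.toMonoidHom.comp ψ.1.toMonoidHom) (φ.2.toMonoidHom.comp ψ.2.toMonoidHom) x =
      extF φ.1.toMonoidHom φ.2.toMonoidHom (extF ψ.1.toMonoidHom ψ.2.toMonoidHom x)
    rw [← extF_comp]; rfl

theorem ext_iL (φ : MulAut (FreeGroup α) × MulAut (FreeGroup β)) (f : FreeGroup α) :
    ext α β φ (iL α β f) = iL α β (φ.1 f) := extF_iL _ _ f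

theorem ext_iR (φ : MulAut (FreeGroup α) × MulAut (FreeGroup β)) (f : FreeGroup β) :
    ext α β φ (iR α β f) = iR α β (φ.2 f) := extF_iR _ _ f

end

section

variable {α β : Type} {Γ₁ Γ₂ : Type} [Group Γ₁] [Group Γ₂]

/-- the product of two actions -/
def th (θ₁ : Γ₁ →* MulAut (FreeGroup α)) (θ₂ : Γ₂ →* MulAut (FreeGroup β)) :
    Γ₁ × Γ₂ →* MulAut (FreeGroup (α ⊕ β)) := (ext α β).comp (θ₁.prodMap θ₂)

/-- the next group -/
abbrev Nxt (θ₁ : Γ₁ →* MulAut (FreeGroup α)) (θ₂ : Γ₂ →* MulAut (FreeGroup β)) : Type :=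
  FreeGroup (α ⊕ β) ⋊[th θ₁ θ₂] (Γ₁ × Γ₂)

/-- the action of the next group -/
def nxt (θ₁ : Γ₁ →* MulAut (FreeGroup α)) (θ₂ : Γ₂ →* MulAut (FreeGroup β)) :
    Nxt θ₁ θ₂ →* MulAut (FreeGroup (α ⊕ β)) :=
  SemidirectProduct.lift MulAut.conj (th θ₁ θ₂) (by
    intro g
    apply MonoidHom.ext
    intro w
    ext x
    simp)

variable {θ₁ : Γ₁ →* MulAut (FreeGroup α)} {θ₂ : Γ₂ →* MulAut (FreeGroup β)}

theorem nxt_apply (g : Nxt θ₁ θ₂) (w : FreeGroup (α ⊕ β)) :
    nxt θ₁ θ₂ g w = g.left * th θ₁ θ₂ g.right w * g.left⁻¹ := by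
  simp [nxt, SemidirectProduct.lift]

theorem th_iL (g : Γ₁ × Γ₂) (f : FreeGroup α) :
    th θ₁ θ₂ g (iL α β f) = iL α β (θ₁ g.1 f) := ext_iL _ f

theorem th_iR (g : Γ₁ × Γ₂) (f : FreeGroup β) :
    th θ₁ θ₂ g (iR α β f) = iR α β (θ₂ g.2 f) := ext_iR _ f

theorem nxt_injective [Nonempty α] [Nonempty β] (h₁ : Function.Injective θ₁)
    (h₂ : Function.Injective θ₂) : Function.Injective (nxt θ₁ θ₂) := by
  rw [injective_iff_map_eq_one]
  intro g hg
  have h1 : ∀ w, g.left * th θ₁ θ₂ g.right w * g.left⁻¹ = w := by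
    intro w
    rw [← nxt_apply, hg]; rfl
  -- `w ∈ F`
  have hL : g.left = iL α β (rL α β g.left) := by
    obtain ⟨a⟩ := (inferInstance : Nonempty α)
    set w := (iL α β (rL α β g.left))⁻¹ * g.left with hw
    have e2 : ∀ f, rL α β g.left * θ₁ g.right.1 f * (rL α β g.left)⁻¹ = f := by
      intro f
      have := congrArg (rL α β) (h1 (iL α β f))
      rwa [th_iL, map_mul, map_mul, map_inv, rL_iL, rL_iL] at this
    have hne : θ₁ g.right.1 (of a) ≠ 1 := by
      rw [Ne, map_eq_one_iff _ (θ₁ g.right.1).injective]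
      exact FreeGroup.of_ne_one a
    have hcomm : w * iL α β (θ₁ g.right.1 (of a)) = iL α β (θ₁ g.right.1 (of a)) * w := by
      have e3 := h1 (iL α β (of a))
      rw [th_iL] at e3
      have e4 := congrArg (iL α β) (e2 (of a))
      rw [map_mul, map_mul, map_inv] at e4
      have e5 : g.left * iL α β (θ₁ g.right.1 (of a)) * g.left⁻¹ =
          iL α β (rL α β g.left) * iL α β (θ₁ g.right.1 (of a)) *
            (iL α β (rL α β g.left))⁻¹ := e3.trans e4.symm
      have e6 := congrArg (fun z => (iL α β (rL α β g.left))⁻¹ * z * g.left) e5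
      simp only [mul_assoc, inv_mul_cancel, mul_one, inv_mul_cancel_left] at e6
      rw [hw, mul_assoc, e6]
    have e7 := mem_of_commute rL_iL hne hcomm
    have e8 : rL α β w = 1 := by
      rw [hw, map_mul, map_inv, rL_iL, inv_mul_cancel]
    rw [e8, map_one, hw, inv_mul_eq_one] at e7
    exact e7.symm
  have hR : g.left = iR α β (rR α β g.left) := by
    obtain ⟨a⟩ := (inferInstance : Nonempty β)
    set w := (iR α β (rR α β g.left))⁻¹ * g.left with hw
    have e2 : ∀ f, rR α β g.left * θ₂ g.right.2 f * (rR α β g.left)⁻¹ = f := by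
      intro f
      have := congrArg (rR α β) (h1 (iR α β f))
      rwa [th_iR, map_mul, map_mul, map_inv, rR_iR, rR_iR] at this
    have hne : θ₂ g.right.2 (of a) ≠ 1 := by
      rw [Ne, map_eq_one_iff _ (θ₂ g.right.2).injective]
      exact FreeGroup.of_ne_one a
    have hcomm : w * iR α β (θ₂ g.right.2 (of a)) = iR α β (θ₂ g.right.2 (of a)) * w := by
      have e3 := h1 (iR α β (of a))
      rw [th_iR] at e3
      have e4 := congrArg (iR α β) (e2 (of a))
      rw [map_mul, map_mul, map_inv] at e4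
      have e5 : g.left * iR α β (θ₂ g.right.2 (of a)) * g.left⁻¹ =
          iR α β (rR α β g.left) * iR α β (θ₂ g.right.2 (of a)) *
            (iR α β (rR α β g.left))⁻¹ := e3.trans e4.symm
      have e6 := congrArg (fun z => (iR α β (rR α β g.left))⁻¹ * z * g.left) e5
      simp only [mul_assoc, inv_mul_cancel, mul_one, inv_mul_cancel_left] at e6
      rw [hw, mul_assoc, e6]
    have e7 := mem_of_commute rR_iR hne hcomm
    have e8 : rR α β w = 1 := by
      rw [hw, map_mul, map_inv, rR_iR, inv_mul_cancel]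
    rw [e8, map_one, hw, inv_mul_eq_one] at e7
    exact e7.symm
  have hl : g.left = 1 := by
    have := congrArg (rL α β) hR
    rw [rL_iR] at this
    rw [hL, this, map_one]
  have hr1 : g.right.1 = 1 := by
    apply h₁
    rw [map_one]
    ext f
    have := congrArg (rL α β) (h1 (iL α β f))
    rw [th_iL, hl, one_mul, inv_one, mul_one, rL_iL, rL_iL] at this
    exact this
  have hr2 : g.right.2 = 1 := by
    apply h₂
    rw [map_one]
    ext f
    have := congrArg (rR α β) (h1 (iR α β f))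
    rw [th_iR, hl, one_mul, inv_one, mul_one, rR_iR, rR_iR] at this
    exact this
  exact SemidirectProduct.ext hl (Prod.ext hr1 hr2)

end

section

/-- Compatible families of representations with pairwise disjoint spectra. -/
def PropP {F Γ : Type} [Group F] [Group Γ] (θ : Γ →* MulAut F) : Prop :=
  ∃ (ι : Type) (_ : Fintype ι) (_ : DecidableEq ι) (_ : Nonempty ι)
    (σ : ℕ → F →* (Matrix ι ι ℂ)ˣ) (τ : ℕ → Γ →* (Matrix ι ι ℂ)ˣ),
    (∀ t g f, τ t g * σ t f = σ t (θ g f) * τ t g) ∧ PD σ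

/-- change of the free group -/
theorem PropP.congr {F F' Γ : Type} [Group F] [Group F'] [Group Γ] {θ : Γ →* MulAut F}
    (h : PropP θ) (e : F ≃* F') {θ' : Γ →* MulAut F'} (he : ∀ g f, θ' g (e f) = e (θ g f)) :
    PropP θ' := by
  obtain ⟨ι, _, _, _, σ, τ, h1, h2⟩ := h
  refine ⟨ι, inferInstance, inferInstance, inferInstance, fun t => (σ t).comp e.symm.toMonoidHom,
    τ, ?_, ?_⟩
  · intro t g f
    change τ t g * σ t (e.symm f) = σ t (e.symm (θ' g f)) * τ t g
    rw [h1]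
    congr 2
    have := he g (e.symm f)
    rw [e.apply_symm_apply] at this
    rw [this, e.symm_apply_apply]
  · intro s t hst f hf
    exact h2 s t hst (e.symm f) (by rwa [Ne, map_eq_one_iff _ e.symm.injective])

variable {α β : Type} {Γ₁ Γ₂ : Type} [Group Γ₁] [Group Γ₂]

section

variable {ι κ : Type} [Fintype ι] [DecidableEq ι] [Fintype κ] [DecidableEq κ]

/-- the action of `Γ₁ × Γ₂` on `K` -/
def zz (S T : Γ₁ →* (Matrix ι ι ℂ)ˣ) (S' T' : Γ₂ →* (Matrix κ κ ℂ)ˣ) :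
    Γ₁ × Γ₂ →* Matrix (KI ι κ) (KI ι κ) ℂ where
  toFun g := ((S g.1 : Matrix ι ι ℂ) ⊗ₖ (T g.1 : Matrix ι ι ℂ)) ⊗ₖ
    ((S' g.2 : Matrix κ κ ℂ) ⊗ₖ (T' g.2 : Matrix κ κ ℂ))
  map_one' := by simp
  map_mul' g h := by
    simp only [Prod.fst_mul, Prod.snd_mul, map_mul, Units.val_mul]
    rw [← Matrix.mul_kronecker_mul, ← Matrix.mul_kronecker_mul, ← Matrix.mul_kronecker_mul]

theorem zz_apply (S T : Γ₁ →* (Matrix ι ι ℂ)ˣ) (S' T' : Γ₂ →* (Matrix κ κ ℂ)ˣ) (g : Γ₁ × Γ₂) :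
    zz S T S' T' g = ((S g.1 : Matrix ι ι ℂ) ⊗ₖ (T g.1 : Matrix ι ι ℂ)) ⊗ₖ
    ((S' g.2 : Matrix κ κ ℂ) ⊗ₖ (T' g.2 : Matrix κ κ ℂ)) := rfl

/-- the action of `Γ₁ × Γ₂` on `K ⊕ K` -/
def TT (S T : Γ₁ →* (Matrix ι ι ℂ)ˣ) (S' T' : Γ₂ →* (Matrix κ κ ℂ)ˣ) :
    Γ₁ × Γ₂ →* (Matrix (WI ι κ) (WI ι κ) ℂ)ˣ := (bd (zz S T S' T') (zz S T S' T')).toHomUnits

theorem TT_val (S T : Γ₁ →* (Matrix ι ι ℂ)ˣ) (S' T' : Γ₂ →* (Matrix κ κ ℂ)ˣ) (g : Γ₁ × Γ₂) :
    (TT S T S' T' g : Matrix (WI ι κ) (WI ι κ) ℂ) =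
      Matrix.fromBlocks (zz S T S' T' g) 0 0 (zz S T S' T' g) := rfl

theorem TT_comm_gm (S T : Γ₁ →* (Matrix ι ι ℂ)ˣ) (S' T' : Γ₂ →* (Matrix κ κ ℂ)ˣ) (g : Γ₁ × Γ₂)
    (l : ℂ) : TT S T S' T' g * gmU (KI ι κ) l = gmU (KI ι κ) l * TT S T S' T' g := by
  apply Units.ext
  rw [Units.val_mul, Units.val_mul, TT_val]
  change Matrix.fromBlocks _ _ _ _ * gm _ l = gm _ l * _
  rw [gm, Matrix.fromBlocks_multiply, Matrix.fromBlocks_multiply]
  simp

theorem rep_TT {σ : ℕ → FreeGroup α →* (Matrix ι ι ℂ)ˣ} {ς : ℕ → FreeGroup β →* (Matrix κ κ ℂ)ˣ}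
    {τ : ℕ → Γ₁ →* (Matrix ι ι ℂ)ˣ} {τ' : ℕ → Γ₂ →* (Matrix κ κ ℂ)ˣ}
    {θ₁ : Γ₁ →* MulAut (FreeGroup α)} {θ₂ : Γ₂ →* MulAut (FreeGroup β)}
    (h1 : ∀ t g f, τ t g * σ t f = σ t (θ₁ g f) * τ t g)
    (h2 : ∀ t g f, τ' t g * ς t f = ς t (θ₂ g f) * τ' t g)
    (y : ℕ × ℂ) (g : Γ₁ × Γ₂) (w : FreeGroup (α ⊕ β)) :
    TT (τ (2 * y.1)) (τ (2 * y.1 + 1)) (τ' (2 * y.1)) (τ' (2 * y.1 + 1)) g * rep σ ς y w =
      rep σ ς y (th θ₁ θ₂ g w) *
        TT (τ (2 * y.1)) (τ (2 * y.1 + 1)) (τ' (2 * y.1)) (τ' (2 * y.1 + 1)) g := by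
  set U := TT (τ (2 * y.1)) (τ (2 * y.1 + 1)) (τ' (2 * y.1)) (τ' (2 * y.1 + 1)) g with hU
  have h : ((MulAut.conj U).toMonoidHom.comp (rep σ ς y)) =
      (rep σ ς y).comp (th θ₁ θ₂ g).toMonoidHom := by
    refine hom_ext' ?_ ?_
    · apply MonoidHom.ext
      intro f
      change U * rep σ ς y (iL α β f) * U⁻¹ = rep σ ς y (th θ₁ θ₂ g (iL α β f))
      rw [mul_inv_eq_iff_eq_mul, th_iL]
      apply Units.ext
      rw [Units.val_mul, Units.val_mul, rep_iL, rep_iL, hU, TT_val, Matrix.fromBlocks_multiply,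
        Matrix.fromBlocks_multiply]
      have e1 := congrArg Units.val (h1 (2 * y.1) g.1 f)
      have e2 := congrArg Units.val (h1 (2 * y.1 + 1) g.1 f)
      rw [Units.val_mul, Units.val_mul] at e1 e2
      simp only [Matrix.zero_mul, Matrix.mul_zero, add_zero, zero_add, zz_apply, aa_apply,
        aa'_apply, ← Matrix.mul_kronecker_mul, mul_one, one_mul, e1, e2]
    · apply MonoidHom.ext
      intro f
      change U * rep σ ς y (iR α β f) * U⁻¹ = rep σ ς y (th θ₁ θ₂ g (iR α β f))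
      rw [mul_inv_eq_iff_eq_mul, th_iR]
      apply Units.ext
      rw [Units.val_mul, Units.val_mul, rep_iR, rep_iR]
      have e1 := congrArg Units.val (h2 (2 * y.1) g.2 f)
      have e2 := congrArg Units.val (h2 (2 * y.1 + 1) g.2 f)
      rw [Units.val_mul, Units.val_mul] at e1 e2
      have e3 : (U : Matrix (WI ι κ) (WI ι κ) ℂ) *
          Matrix.fromBlocks (bb ι (ς (2 * y.1)) f) 0 0 (bb' ι (ς (2 * y.1 + 1)) f) =
          Matrix.fromBlocks (bb ι (ς (2 * y.1)) (θ₂ g.2 f)) 0 0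
            (bb' ι (ς (2 * y.1 + 1)) (θ₂ g.2 f)) * (U : Matrix (WI ι κ) (WI ι κ) ℂ) := by
        rw [hU, TT_val, Matrix.fromBlocks_multiply, Matrix.fromBlocks_multiply]
        simp only [Matrix.zero_mul, Matrix.mul_zero, add_zero, zero_add, zz_apply, bb_apply,
          bb'_apply, ← Matrix.mul_kronecker_mul, mul_one, one_mul, e1, e2]
      have e4 : (U : Matrix (WI ι κ) (WI ι κ) ℂ) * (gmU (KI ι κ) y.2 : Matrix (WI ι κ) (WI ι κ) ℂ) =
          (gmU (KI ι κ) y.2 : Matrix (WI ι κ) (WI ι κ) ℂ) * (U : Matrix (WI ι κ) (WI ι κ) ℂ) :=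
        congrArg Units.val (TT_comm_gm _ _ _ _ g y.2)
      have e5 : (U : Matrix (WI ι κ) (WI ι κ) ℂ) *
          (↑(gmU (KI ι κ) y.2)⁻¹ : Matrix (WI ι κ) (WI ι κ) ℂ) =
          (↑(gmU (KI ι κ) y.2)⁻¹ : Matrix (WI ι κ) (WI ι κ) ℂ) * (U : Matrix (WI ι κ) (WI ι κ) ℂ) := by
        have : Commute U (gmU (KI ι κ) y.2) := TT_comm_gm _ _ _ _ g y.2
        exact congrArg Units.val this.inv_right.eq
      generalize (gmU (KI ι κ) y.2 : Matrix (WI ι κ) (WI ι κ) ℂ) = G at e4 ⊢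
      generalize (↑(gmU (KI ι κ) y.2)⁻¹ : Matrix (WI ι κ) (WI ι κ) ℂ) = G' at e5 ⊢
      generalize (U : Matrix (WI ι κ) (WI ι κ) ℂ) = V at e3 e4 e5 ⊢
      generalize Matrix.fromBlocks (bb ι (ς (2 * y.1)) f) 0 0 (bb' ι (ς (2 * y.1 + 1)) f) = D at e3 ⊢
      generalize Matrix.fromBlocks (bb ι (ς (2 * y.1)) (θ₂ g.2 f)) 0 0
            (bb' ι (ς (2 * y.1 + 1)) (θ₂ g.2 f)) = D' at e3 ⊢
      calc V * (G * D * G') = (V * G) * D * G' := by simp only [Matrix.mul_assoc]
        _ = G * (V * D) * G' := by rw [e4]; simp only [Matrix.mul_assoc]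
        _ = G * D' * (V * G') := by rw [e3]; simp only [Matrix.mul_assoc]
        _ = G * D' * G' * V := by rw [e5]; simp only [Matrix.mul_assoc]
  have := DFunLike.congr_fun h w
  change U * rep σ ς y w * U⁻¹ = rep σ ς y (th θ₁ θ₂ g w) at this
  exact mul_inv_eq_iff_eq_mul.mp this

end

theorem propP_nxt [Countable α] [Countable β] {θ₁ : Γ₁ →* MulAut (FreeGroup α)}
    {θ₂ : Γ₂ →* MulAut (FreeGroup β)} (h : PropP θ₁) (h' : PropP θ₂) : PropP (nxt θ₁ θ₂) := by
  obtain ⟨ι, _, _, _, σ, τ, h1, h2⟩ := h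
  obtain ⟨κ, _, _, _, ς, τ', h1', h2'⟩ := h'
  obtain ⟨y, hy⟩ := exists_family h2 h2'
  refine ⟨WI ι κ, inferInstance, inferInstance, inferInstance, fun t => rep σ ς (y t),
    fun t => SemidirectProduct.lift (rep σ ς (y t))
      (TT (τ (2 * (y t).1)) (τ (2 * (y t).1 + 1)) (τ' (2 * (y t).1)) (τ' (2 * (y t).1 + 1)))
      ?_, ?_, hy⟩
  · intro g
    apply MonoidHom.ext
    intro w
    change rep σ ς (y t) (th θ₁ θ₂ g w) = TT _ _ _ _ g * rep σ ς (y t) w * (TT _ _ _ _ g)⁻¹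
    rw [rep_TT h1 h1', mul_inv_cancel_right]
  · intro t g w
    rw [nxt_apply]
    change rep σ ς (y t) g.left * TT _ _ _ _ g.right * rep σ ς (y t) w = rep σ ς (y t) _ *
      (rep σ ς (y t) g.left * TT _ _ _ _ g.right)
    rw [mul_assoc, rep_TT h1 h1', map_mul, map_mul, map_inv]
    group

/-- faithfulness -/
theorem PropP.exists_injective {F Γ : Type} [Group F] [Group Γ] {θ : Γ →* MulAut F}
    (h : PropP θ) (hθ : Function.Injective θ) :
    ∃ (m : ℕ) (ρ : Γ →* Matrix.GeneralLinearGroup (Fin m) ℂ), Function.Injective ρ := by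
  obtain ⟨ι, _, _, _, σ, τ, h1, h2⟩ := h
  -- the direct sum of `τ 0` and `τ 1`
  let R0 : Γ →* Matrix (ι ⊕ ι) (ι ⊕ ι) ℂ :=
    { toFun := fun g => Matrix.fromBlocks (τ 0 g : Matrix ι ι ℂ) 0 0 (τ 1 g : Matrix ι ι ℂ)
      map_one' := by simp
      map_mul' := fun a b => by
        rw [Matrix.fromBlocks_multiply]
        simp }
  have hR0 : ∀ g, R0 g = 1 → g = 1 := by
    intro g hg
    have hg' : Matrix.fromBlocks (τ 0 g : Matrix ι ι ℂ) 0 0 (τ 1 g : Matrix ι ι ℂ) =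
        Matrix.fromBlocks 1 0 0 1 := by
      rw [Matrix.fromBlocks_one]; exact hg
    rw [Matrix.fromBlocks_inj] at hg'
    have t0 : τ 0 g = 1 := Units.ext hg'.1
    have t1 : τ 1 g = 1 := Units.ext hg'.2.2.2
    apply hθ
    rw [map_one]
    ext f
    change θ g f = f
    by_contra hne
    have hne' : θ g f * f⁻¹ ≠ 1 := fun h => hne (mul_inv_eq_one.mp h)
    have e0 : σ 0 (θ g f * f⁻¹) = 1 := by
      have := h1 0 g f
      rw [t0, one_mul, mul_one] at this
      rw [map_mul, ← this, map_inv, mul_inv_cancel]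
    have e1 : σ 1 (θ g f * f⁻¹) = 1 := by
      have := h1 1 g f
      rw [t1, one_mul, mul_one] at this
      rw [map_mul, ← this, map_inv, mul_inv_cancel]
    have := h2 0 1 (by norm_num) _ hne'
    rw [e0, e1] at this
    exact not_disj_one this
  let e := Fintype.equivFin (ι ⊕ ι)
  let R1 : Γ →* Matrix (Fin (Fintype.card (ι ⊕ ι))) (Fin (Fintype.card (ι ⊕ ι))) ℂ :=
    ((Matrix.reindexAlgEquiv ℂ ℂ e).toAlgHom : Matrix (ι ⊕ ι) (ι ⊕ ι) ℂ →* _).comp R0
  refine ⟨_, R1.toHomUnits, ?_⟩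
  rw [injective_iff_map_eq_one]
  intro g hg
  have h3 : R1 g = 1 := congrArg Units.val hg
  apply hR0
  have h4 : Matrix.reindexAlgEquiv ℂ ℂ e (R0 g) = Matrix.reindexAlgEquiv ℂ ℂ e 1 := by
    rw [map_one]; exact h3
  exact (Matrix.reindexAlgEquiv ℂ ℂ e).injective h4

/-- base: infinite cyclic group -/
theorem propP_one {α : Type} [Unique α] {Γ : Type} [Group Γ] :
    PropP (1 : Γ →* MulAut (FreeGroup α)) := by
  refine ⟨Unit, inferInstance, inferInstance, inferInstance,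
    fun t => FreeGroup.lift (fun _ => Units.map (algebraMap ℂ (Matrix Unit Unit ℂ) : ℂ →* _)
      (Units.mk0 ((2 : ℂ) ^ t) (pow_ne_zero _ two_ne_zero))), fun _ => 1, ?_, ?_⟩
  · intro t g f
    simp
  · intro s t hst f hf
    obtain ⟨k, hk⟩ : ∃ k : ℤ, f = FreeGroup.of default ^ k := by
      induction f using FreeGroup.induction_on with
      | C1 => exact ⟨0, by simp⟩
      | of b => exact ⟨1, by rw [Subsingleton.elim b default, zpow_one]⟩
      | inv_of b _ => exact ⟨-1, by rw [Subsingleton.elim b default, _root_.zpow_neg_one]⟩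
      | mul x y hx hy =>
        by_cases hx1 : x = 1
        · subst hx1
          rw [one_mul] at hf ⊢
          exact hy hf
        · by_cases hy1 : y = 1
          · subst hy1
            rw [mul_one] at hf ⊢
            exact hx hf
          · obtain ⟨k, rfl⟩ := hx hx1
            obtain ⟨l, rfl⟩ := hy hy1
            exact ⟨k + l, by rw [_root_.zpow_add]⟩
    have hk0 : k ≠ 0 := by
      rintro rfl
      exact hf (by rw [hk, zpow_zero])
    have key : ∀ t : ℕ, ((FreeGroup.lift (fun _ => Units.map (algebraMap ℂ (Matrix Unit Unit ℂ) : ℂ →* _)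
      (Units.mk0 ((2 : ℂ) ^ t) (pow_ne_zero _ two_ne_zero))) f : (Matrix Unit Unit ℂ)ˣ) :
        Matrix Unit Unit ℂ) = algebraMap ℂ _ (((2 : ℂ) ^ t) ^ k) := by
      intro t
      rw [hk, map_zpow, FreeGroup.lift_apply_of, ← map_zpow]
      change algebraMap ℂ _ ((Units.mk0 ((2 : ℂ) ^ t) (pow_ne_zero _ two_ne_zero) ^ k : ℂˣ) : ℂ) = _
      rw [Units.val_zpow_eq_zpow_val, Units.val_mk0]
    rw [key, key]
    have hne : ((2 : ℂ) ^ s) ^ k ≠ ((2 : ℂ) ^ t) ^ k := by
      intro h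
      have h1 := congrArg norm h
      rw [norm_zpow, norm_zpow, norm_pow, norm_pow, Complex.norm_ofNat, ← zpow_natCast,
        ← zpow_natCast, ← _root_.zpow_mul, ← _root_.zpow_mul] at h1
      have h2 := zpow_right_injective₀ (by norm_num : (0 : ℝ) < 2) (by norm_num) h1
      have h3 : (s : ℤ) = t := mul_right_cancel₀ hk0 h2
      exact hst (by exact_mod_cast h3)
    refine ⟨Polynomial.X - Polynomial.C (((2 : ℂ) ^ s) ^ k),
      Polynomial.X - Polynomial.C (((2 : ℂ) ^ t) ^ k), ?_, by simp, by simp⟩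
    exact Polynomial.isCoprime_X_sub_C_of_isUnit_sub (sub_ne_zero.mpr hne).isUnit

end

end Pool.Agent.P99223
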