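import Mathlib
import Pool.Agent.Lib.P99223.Tower

/-!
An automorphism of `F * H` which maps `F` and `H` to conjugates of `F` and `H` is the product of an
inner automorphism and a pair of automorphisms of the factors.
-/

set_option autoImplicit false

namespace Pool.Agent.P99223

open FreeGroup (of)
open Polynomial

section degree

variable {κ : Type*} [Fintype κ]

/-- exact degree of a polynomial matrix -/
def Ex (d : ℕ) (N : Matrix κ κ ℂ[X]) : Prop := ∃ T : Matrix κ κ ℂ, T ≠ 0 ∧ Top d N T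

theorem Ex.le {d d' : ℕ} {N : Matrix κ κ ℂ[X]} (h : Ex d N) (h' : Ex d' N) : d ≤ d' := by
  classical
  obtain ⟨T, hT, h1⟩ := h
  obtain ⟨T', -, h2⟩ := h'
  obtain ⟨u, hu⟩ : ∃ u, Matrix.mulVec T u ≠ 0 := by
    by_contra hc
    push Not at hc
    refine hT (Matrix.ext fun i j => ?_)
    have := congrFun (hc (Pi.single j 1)) i
    simpa using this
  set v : κ → ℂ[X] := fun i => C (u i) with hv
  have hv0 : DegLE 0 v := by
    intro n hn
    funext i
    simp [lcf, hv, Polynomial.coeff_C, hn.ne']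
  have hv1 : lcf 0 v = u := by
    funext i
    simp [lcf, hv]
  by_contra hlt
  have h3 := (h1 0 v hv0).2
  rw [hv1, zero_add] at h3
  have h4 := (h2 0 v hv0).1 d (by omega)
  rw [h4] at h3
  exact hu h3.symm

theorem Ex.unique {d d' : ℕ} {N : Matrix κ κ ℂ[X]} (h : Ex d N) (h' : Ex d' N) : d = d' :=
  le_antisymm (h.le h') (h'.le h)

variable {M : Type*} [Fintype M] [DecidableEq M] [Nonempty M] {α β : Type*}
  {a a' : FreeGroup α →* Matrix M M ℂ} {b b' : FreeGroup β →* Matrix M M ℂ}

theorem ex_word (ha : Sep a a') (hb : Sep b b') (L : List (FreeGroup α × FreeGroup β))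
    (h1 : ∀ x ∈ L.tail, x.1 ≠ 1) (h2 : ∀ x ∈ L, x.2 ≠ 1) (f : FreeGroup α) :
    Ex L.length (rhoR (X : ℂ[X]) (cst a) (cst a') (cst b) (cst b')
      (wd (iL α β) (iR α β) L * iL α β f) : Matrix (M ⊕ M) (M ⊕ M) ℂ[X]) := by
  refine ⟨TL a a' b b' L * bd a a' f, ?_, ?_⟩
  · intro h0
    have h3 : TL a a' b b' L = 0 := by
      have := congrArg (fun N => N * bd a a' f⁻¹) h0
      simp only [Matrix.zero_mul] at this
      rwa [Matrix.mul_assoc, ← map_mul, mul_inv_cancel, map_one, Matrix.mul_one] at this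
    have h4 := TL_zero' ha hb L h1 h2 (Sum.elim 0 1) (by rw [h3, Matrix.zero_mulVec])
    obtain ⟨i⟩ := (inferInstance : Nonempty M)
    have h5 := congrFun h4 i
    simp [dl] at h5
  · rw [map_mul, Units.val_mul, rhoR_iL]
    have h3 := (top_wd a a' b b' L).mul (top_bd a a' f)
    rwa [add_zero] at h3

end degree

section words

variable {α β : Type*}

/-- normal form -/
theorem exists_nf (g : FreeGroup (α ⊕ β)) :
    ∃ (L : List (FreeGroup α × FreeGroup β)) (f : FreeGroup α), (∀ x ∈ L.tail, x.1 ≠ 1) ∧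
      (∀ x ∈ L, x.2 ≠ 1) ∧ g = wd (iL α β) (iR α β) L * iL α β f := by
  classical
  have hex : ∃ n, ∃ (L : List (FreeGroup α × FreeGroup β)) (f : FreeGroup α), L.length = n ∧
      g = wd (iL α β) (iR α β) L * iL α β f := by
    obtain ⟨L, -, h⟩ := all_words g
    exact ⟨_, L, 1, rfl, by rw [map_one, mul_one, h]⟩
  obtain ⟨L, f, hn, hg⟩ := Nat.find_spec hex
  have hmin : ∀ (L' : List (FreeGroup α × FreeGroup β)) (f' : FreeGroup α),
      g = wd (iL α β) (iR α β) L' * iL α β f' → L.length ≤ L'.length := by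
    intro L' f' h
    rw [hn]
    exact Nat.find_min' hex ⟨L', f', rfl, h⟩
  refine ⟨L, f, ?_, ?_, hg⟩
  · intro x hx hx1
    obtain ⟨y, N, rfl⟩ : ∃ y N, L = y :: N := by
      rcases L with _ | ⟨y, N⟩
      · simp at hx
      · exact ⟨y, N, rfl⟩
    rw [List.tail_cons] at hx
    obtain ⟨A, B, rfl⟩ := List.append_of_mem hx
    -- the last entry of `y :: A` is merged with `x`
    obtain ⟨C, z, hz⟩ : ∃ C z, y :: A = C ++ [z] :=
      ⟨(y :: A).dropLast, (y :: A).getLast (by simp),
        (List.dropLast_append_getLast (by simp)).symm⟩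
    have h1 : wd (iL α β) (iR α β) (y :: (A ++ x :: B)) =
        wd (iL α β) (iR α β) (C ++ (z.1, z.2 * x.2) :: B) := by
      rw [← List.cons_append, hz, wd_append, wd_append, wd_append, wd_cons, wd_cons, wd_cons, hx1]
      simp only [wd, List.map_nil, List.prod_nil, map_one, one_mul, mul_one, map_mul, mul_assoc]
    have h2 := hmin _ f (by rw [← h1]; exact hg)
    have h3 : (y :: (A ++ x :: B)).length = (C ++ (z.1, z.2 * x.2) :: B).length + 1 := by
      rw [← List.cons_append, hz]
      simp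
      ring
    omega
  · intro x hx hx1
    obtain ⟨A, B, rfl⟩ := List.append_of_mem hx
    rcases B with _ | ⟨z, B⟩
    · have h1 : wd (iL α β) (iR α β) (A ++ [x]) * iL α β f =
          wd (iL α β) (iR α β) A * iL α β (x.1 * f) := by
        rw [wd_append, wd_cons, hx1]
        simp only [wd, List.map_nil, List.prod_nil, map_one, mul_one, map_mul, mul_assoc]
      have h2 := hmin A (x.1 * f) (by rw [← h1]; exact hg)
      simp at h2
    · have h1 : wd (iL α β) (iR α β) (A ++ x :: z :: B) =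
          wd (iL α β) (iR α β) (A ++ (x.1 * z.1, z.2) :: B) := by
        rw [wd_append, wd_append, wd_cons, wd_cons, wd_cons, hx1]
        simp only [map_one, mul_one, map_mul, mul_assoc]
      have h2 := hmin (A ++ (x.1 * z.1, z.2) :: B) f (by rw [← h1]; exact hg)
      simp at h2

/-- decomposition of an element -/
theorem exists_core (w : FreeGroup (α ⊕ β)) :
    (∃ f h, w = iL α β f * iR α β h) ∨
      ∃ (f₀ : FreeGroup α) (h₀ h : FreeGroup β) (L : List (FreeGroup α × FreeGroup β))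
        (f : FreeGroup α), h ≠ 1 ∧ f ≠ 1 ∧ (∀ x ∈ L, x.1 ≠ 1) ∧ (∀ x ∈ L, x.2 ≠ 1) ∧
        w = iL α β f₀ * (iR α β h * wd (iL α β) (iR α β) L * iL α β f) * iR α β h₀ := by
  obtain ⟨L, f, h1, h2, rfl⟩ := exists_nf w
  rcases L with _ | ⟨x, L⟩
  · left
    exact ⟨f, 1, by simp [wd]⟩
  · rw [List.tail_cons] at h1
    by_cases hf : f = 1
    · subst hf
      rcases List.eq_nil_or_concat L with rfl | ⟨L', y, rfl⟩
      · left
        exact ⟨x.1, x.2, by simp [wd]⟩
      · right
        rw [List.concat_eq_append] at h1 h2 ⊢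
        refine ⟨x.1, y.2, x.2, L', y.1, h2 x (by simp), h1 y (by simp),
          fun z hz => h1 z (List.mem_append_left _ hz),
          fun z hz => h2 z (List.mem_cons_of_mem _ (List.mem_append_left _ hz)), ?_⟩
        rw [wd_cons, wd_append, wd_cons]
        simp only [wd, List.map_nil, List.prod_nil, map_one, mul_one, mul_assoc]
    · right
      refine ⟨x.1, 1, x.2, L, f, h2 x (by simp), hf, h1,
        fun z hz => h2 z (List.mem_cons_of_mem _ hz), ?_⟩
      rw [wd_cons, map_one, mul_one]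
      simp only [mul_assoc]

theorem exists_inv (L : List (FreeGroup α × FreeGroup β)) (h1 : ∀ x ∈ L, x.1 ≠ 1)
    (h2 : ∀ x ∈ L, x.2 ≠ 1) : ∀ (f : FreeGroup α) (h : FreeGroup β), f ≠ 1 → h ≠ 1 →
    ∃ L' : List (FreeGroup α × FreeGroup β), (∀ x ∈ L', x.1 ≠ 1) ∧ (∀ x ∈ L', x.2 ≠ 1) ∧
      iL α β f * (wd (iL α β) (iR α β) L)⁻¹ * iR α β h = wd (iL α β) (iR α β) L' := by
  induction L with
  | nil =>
    intro f h hf hh
    refine ⟨[(f, h)], by simpa using hf, by simpa using hh, by simp [wd]⟩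
  | cons x L ih =>
    intro f h hf hh
    obtain ⟨L', e1, e2, e3⟩ := ih (fun z hz => h1 z (List.mem_cons_of_mem _ hz))
      (fun z hz => h2 z (List.mem_cons_of_mem _ hz)) f x.2⁻¹ hf (inv_ne_one.mpr (h2 x (by simp)))
    refine ⟨L' ++ [(x.1⁻¹, h)], ?_, ?_, ?_⟩
    · intro z hz
      rcases List.mem_append.mp hz with hz | hz
      · exact e1 z hz
      · rw [List.mem_singleton.mp hz]
        exact inv_ne_one.mpr (h1 x (by simp))
    · intro z hz
      rcases List.mem_append.mp hz with hz | hz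
      · exact e2 z hz
      · rw [List.mem_singleton.mp hz]
        exact hh
    · rw [wd_append, ← e3, wd_cons, wd_cons]
      simp only [wd, List.map_nil, List.prod_nil, map_inv, mul_inv_rev, mul_one, mul_assoc]

end words

section decomp

variable {α β : Type*} {M : Type*} [Fintype M] [DecidableEq M] [Nonempty M]
  {a a' : FreeGroup α →* Matrix M M ℂ} {b b' : FreeGroup β →* Matrix M M ℂ}

/-- the core of the conjugating element is trivial -/
theorem no_core [Nonempty β] (ha : Sep a a') (hb : Sep b b') {φ : MulAut (FreeGroup (α ⊕ β))}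
    {h : FreeGroup β} {L : List (FreeGroup α × FreeGroup β)} {f : FreeGroup α} (hh : h ≠ 1)
    (hf : f ≠ 1) (h1 : ∀ x ∈ L, x.1 ≠ 1) (h2 : ∀ x ∈ L, x.2 ≠ 1)
    (hF : ∀ f', ∃ f'', φ (iL α β f') = iL α β f'')
    (hH : ∀ k, ∃ k', φ (iR α β k) = (iR α β h * wd (iL α β) (iR α β) L * iL α β f) * iR α β k' *
      (iR α β h * wd (iL α β) (iR α β) L * iL α β f)⁻¹) : False := by
  obtain ⟨L₁, e1, e2, e3⟩ := exists_inv L h1 h2 f⁻¹ h⁻¹ (inv_ne_one.mpr hf) (inv_ne_one.mpr hh)
  set v := iR α β h * wd (iL α β) (iR α β) L * iL α β f with hv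
  have hv' : v⁻¹ = wd (iL α β) (iR α β) L₁ := by
    rw [hv, ← e3]
    simp only [map_inv, mul_inv_rev, mul_assoc]
  -- the blocks
  set blk : FreeGroup α → FreeGroup β → List (FreeGroup α × FreeGroup β) :=
    fun f' k => (f', h) :: (L ++ (f, k) :: L₁) with hblk
  have hbw : ∀ f' k, wd (iL α β) (iR α β) (blk f' k) = iL α β f' * (v * iR α β k * v⁻¹) := by
    intro f' k
    rw [hblk, wd_cons, wd_append, wd_cons, hv', hv]
    simp only [mul_assoc]
  have hbl : ∀ f' k, (blk f' k).length = L.length + L₁.length + 2 := by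
    intro f' k
    simp [hblk]
    ring
  have key : ∀ Q : List (FreeGroup α × FreeGroup β), (∀ x ∈ Q, x.1 ≠ 1) → (∀ x ∈ Q, x.2 ≠ 1) →
      ∃ L' : List (FreeGroup α × FreeGroup β), (∀ x ∈ L', x.1 ≠ 1) ∧ (∀ x ∈ L', x.2 ≠ 1) ∧
        L'.length = Q.length * (L.length + L₁.length + 2) ∧
        φ (wd (iL α β) (iR α β) Q) = wd (iL α β) (iR α β) L' := by
    intro Q
    induction Q with
    | nil =>
      intro _ _
      exact ⟨[], by simp, by simp, by simp, by simp [wd]⟩
    | cons x Q ih =>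
      intro q1 q2
      obtain ⟨L', l1, l2, l3, l4⟩ := ih (fun z hz => q1 z (List.mem_cons_of_mem _ hz))
        (fun z hz => q2 z (List.mem_cons_of_mem _ hz))
      obtain ⟨f', hf'⟩ := hF x.1
      obtain ⟨k, hk⟩ := hH x.2
      have hf'1 : f' ≠ 1 := by
        rintro rfl
        rw [map_one, map_eq_one_iff _ φ.injective] at hf'
        have := congrArg (rL α β) hf'
        rw [rL_iL, map_one] at this
        exact q1 x (by simp) this
      have hk1 : k ≠ 1 := by
        rintro rfl
        rw [map_one, mul_one, mul_inv_cancel, map_eq_one_iff _ φ.injective] at hk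
        have := congrArg (rR α β) hk
        rw [rR_iR, map_one] at this
        exact q2 x (by simp) this
      refine ⟨blk f' k ++ L', ?_, ?_, ?_, ?_⟩
      · intro z hz
        rcases List.mem_append.mp hz with hz | hz
        · simp only [hblk, List.mem_cons, List.mem_append] at hz
          rcases hz with rfl | hz | rfl | hz
          · exact hf'1
          · exact h1 z hz
          · exact hf
          · exact e1 z hz
        · exact l1 z hz
      · intro z hz
        rcases List.mem_append.mp hz with hz | hz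
        · simp only [hblk, List.mem_cons, List.mem_append] at hz
          rcases hz with rfl | hz | rfl | hz
          · exact hh
          · exact h2 z hz
          · exact hk1
          · exact e2 z hz
        · exact l2 z hz
      · rw [List.length_append, hbl, l3, List.length_cons]
        ring
      · rw [wd_cons, map_mul, map_mul, hf', hk, l4, wd_append, hbw]
  obtain ⟨c⟩ := (inferInstance : Nonempty β)
  obtain ⟨Q, f₁, q1, q2, hQ⟩ := exists_nf (φ.symm (iR α β (of c)))
  have ht : iR α β (of c) = φ (wd (iL α β) (iR α β) Q) * φ (iL α β f₁) := by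
    rw [← map_mul, ← hQ, MulEquiv.apply_symm_apply]
  obtain ⟨f₂, hf₂⟩ := hF f₁
  rw [hf₂] at ht
  have hd1 : Ex 1 (rhoR (X : ℂ[X]) (cst a) (cst a') (cst b) (cst b') (iR α β (of c)) :
      Matrix (M ⊕ M) (M ⊕ M) ℂ[X]) := by
    have := ex_word ha hb [((1 : FreeGroup α), of c)] (by simp)
      (by simp) 1
    simpa [wd] using this
  have hd2 : ∃ N, Ex (N * (L.length + L₁.length + 2))
      (rhoR (X : ℂ[X]) (cst a) (cst a') (cst b) (cst b') (iR α β (of c)) :
      Matrix (M ⊕ M) (M ⊕ M) ℂ[X]) := by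
    rcases Q with _ | ⟨x, Q⟩
    · refine ⟨0, ?_⟩
      have := ex_word ha hb [] (by simp) (by simp) f₂
      rw [ht]
      simpa [wd] using this
    · obtain ⟨L', l1, l2, l3, l4⟩ := key Q (fun z hz => q1 z (by simpa using hz))
        (fun z hz => q2 z (List.mem_cons_of_mem _ hz))
      obtain ⟨f', hf'⟩ := hF x.1
      obtain ⟨k, hk⟩ := hH x.2
      have hk1 : k ≠ 1 := by
        rintro rfl
        rw [map_one, mul_one, mul_inv_cancel, map_eq_one_iff _ φ.injective] at hk
        have := congrArg (rR α β) hk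
        rw [rR_iR, map_one] at this
        exact q2 x (by simp) this
      refine ⟨Q.length + 1, ?_⟩
      have e4 : φ (wd (iL α β) (iR α β) (x :: Q)) = wd (iL α β) (iR α β) (blk f' k ++ L') := by
        rw [wd_cons, map_mul, map_mul, hf', hk, l4, wd_append, hbw]
      have e5 : (blk f' k ++ L').length = (Q.length + 1) * (L.length + L₁.length + 2) := by
        rw [List.length_append, hbl, l3]
        ring
      rw [ht, e4, ← e5]
      refine ex_word ha hb _ ?_ ?_ f₂
      · intro z hz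
        have hz' : z ∈ L ++ (f, k) :: L₁ ++ L' := by simpa [hblk] using hz
        rcases List.mem_append.mp hz' with hz | hz
        · simp only [List.mem_cons, List.mem_append] at hz
          rcases hz with hz | rfl | hz
          · exact h1 z hz
          · exact hf
          · exact e1 z hz
        · exact l1 z hz
      · intro z hz
        rcases List.mem_append.mp hz with hz | hz
        · simp only [hblk, List.mem_cons, List.mem_append] at hz
          rcases hz with rfl | hz | rfl | hz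
          · exact hh
          · exact h2 z hz
          · exact hk1
          · exact e2 z hz
        · exact l2 z hz
  obtain ⟨N, hN⟩ := hd2
  have h3 := hd1.unique hN
  have h4 : N ∣ 1 := ⟨_, h3⟩
  have h5 : N = 1 := Nat.dvd_one.mp h4
  rw [h5] at h3
  omega

/-- an automorphism which preserves both factors -/
theorem exists_ext {φ : MulAut (FreeGroup (α ⊕ β))}
    (hF : ∀ f', ∃ f'', φ (iL α β f') = iL α β f'') (hF' : ∀ f', ∃ f'', φ (iL α β f'') = iL α β f')
    (hH : ∀ f', ∃ f'', φ (iR α β f') = iR α β f'') (hH' : ∀ f', ∃ f'', φ (iR α β f'') = iR α β f') :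
    ∃ (φ₁ : MulAut (FreeGroup α)) (φ₂ : MulAut (FreeGroup β)), φ = ext α β (φ₁, φ₂) := by
  have hFs : ∀ f', ∃ f'', φ.symm (iL α β f') = iL α β f'' := by
    intro f'
    obtain ⟨f'', h⟩ := hF' f'
    exact ⟨f'', by rw [← h, MulEquiv.symm_apply_apply]⟩
  have hHs : ∀ f', ∃ f'', φ.symm (iR α β f') = iR α β f'' := by
    intro f'
    obtain ⟨f'', h⟩ := hH' f'
    exact ⟨f'', by rw [← h, MulEquiv.symm_apply_apply]⟩
  obtain ⟨φ₁, h₁⟩ : ∃ φ₁ : MulAut (FreeGroup α), ∀ f, φ (iL α β f) = iL α β (φ₁ f) := by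
    refine ⟨MonoidHom.toMulEquiv ((rL α β).comp (φ.toMonoidHom.comp (iL α β)))
      ((rL α β).comp (φ.symm.toMonoidHom.comp (iL α β))) ?_ ?_, ?_⟩
    · apply MonoidHom.ext
      intro f
      change rL α β (φ.symm (iL α β (rL α β (φ (iL α β f))))) = f
      obtain ⟨f'', h⟩ := hF f
      rw [h, rL_iL, ← h, MulEquiv.symm_apply_apply, rL_iL]
    · apply MonoidHom.ext
      intro f
      change rL α β (φ (iL α β (rL α β (φ.symm (iL α β f))))) = f
      obtain ⟨f'', h⟩ := hFs f
      rw [h, rL_iL, ← h, MulEquiv.apply_symm_apply, rL_iL]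
    · intro f
      change φ (iL α β f) = iL α β (rL α β (φ (iL α β f)))
      obtain ⟨f'', h⟩ := hF f
      rw [h, rL_iL]
  obtain ⟨φ₂, h₂⟩ : ∃ φ₂ : MulAut (FreeGroup β), ∀ f, φ (iR α β f) = iR α β (φ₂ f) := by
    refine ⟨MonoidHom.toMulEquiv ((rR α β).comp (φ.toMonoidHom.comp (iR α β)))
      ((rR α β).comp (φ.symm.toMonoidHom.comp (iR α β))) ?_ ?_, ?_⟩
    · apply MonoidHom.ext
      intro f
      change rR α β (φ.symm (iR α β (rR α β (φ (iR α β f))))) = f
      obtain ⟨f'', h⟩ := hH f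
      rw [h, rR_iR, ← h, MulEquiv.symm_apply_apply, rR_iR]
    · apply MonoidHom.ext
      intro f
      change rR α β (φ (iR α β (rR α β (φ.symm (iR α β f))))) = f
      obtain ⟨f'', h⟩ := hHs f
      rw [h, rR_iR, ← h, MulEquiv.apply_symm_apply, rR_iR]
    · intro f
      change φ (iR α β f) = iR α β (rR α β (φ (iR α β f)))
      obtain ⟨f'', h⟩ := hH f
      rw [h, rR_iR]
  refine ⟨φ₁, φ₂, ?_⟩
  have : φ.toMonoidHom = (ext α β (φ₁, φ₂)).toMonoidHom := by
    refine hom_ext' ?_ ?_
    · apply MonoidHom.ext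
      intro f
      change φ (iL α β f) = ext α β (φ₁, φ₂) (iL α β f)
      rw [ext_iL, h₁]
    · apply MonoidHom.ext
      intro f
      change φ (iR α β f) = ext α β (φ₁, φ₂) (iR α β f)
      rw [ext_iR, h₂]
  ext x
  exact DFunLike.congr_fun this x

/-- decomposition of automorphisms -/
theorem decomp [Nonempty β] (ha : Sep a a') (hb : Sep b b') {φ : MulAut (FreeGroup (α ⊕ β))}
    {g w : FreeGroup (α ⊕ β)} (hF : ∀ f', ∃ f'', φ (iL α β f') = g * iL α β f'' * g⁻¹)
    (hF' : ∀ f', ∃ f'', φ (iL α β f'') = g * iL α β f' * g⁻¹)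
    (hH : ∀ f', ∃ f'', φ (iR α β f') = w * iR α β f'' * w⁻¹)
    (hH' : ∀ f', ∃ f'', φ (iR α β f'') = w * iR α β f' * w⁻¹) :
    ∃ (u : FreeGroup (α ⊕ β)) (φ₁ : MulAut (FreeGroup α)) (φ₂ : MulAut (FreeGroup β)),
      φ = MulAut.conj u * ext α β (φ₁, φ₂) := by
  rcases exists_core (g⁻¹ * w) with ⟨f₀, h₀, hw⟩ | ⟨f₀, h₀, h, L, f, hh, hf, h1, h2, hw⟩
  · -- `φ₂ = (g f₀)⁻¹ φ`
    have hw' : w = g * (iL α β f₀ * iR α β h₀) := by rw [← hw]; group
    obtain ⟨φ₁, φ₂, h3⟩ := exists_ext (φ := MulAut.conj (g * iL α β f₀)⁻¹ * φ) (by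
      intro f'
      obtain ⟨f'', e⟩ := hF f'
      refine ⟨f₀⁻¹ * f'' * f₀, ?_⟩
      rw [MulAut.mul_apply, e, MulAut.conj_apply, map_mul, map_mul, map_inv]
      group) (by
      intro f'
      obtain ⟨f'', e⟩ := hF' (f₀ * f' * f₀⁻¹)
      refine ⟨f'', ?_⟩
      rw [MulAut.mul_apply, e, MulAut.conj_apply, map_mul, map_mul, map_inv]
      group) (by
      intro f'
      obtain ⟨f'', e⟩ := hH f'
      refine ⟨h₀ * f'' * h₀⁻¹, ?_⟩
      rw [MulAut.mul_apply, e, MulAut.conj_apply, map_mul, map_mul, map_inv, hw']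
      group) (by
      intro f'
      obtain ⟨f'', e⟩ := hH' (h₀⁻¹ * f' * h₀)
      refine ⟨f'', ?_⟩
      rw [MulAut.mul_apply, e, MulAut.conj_apply, map_mul, map_mul, map_inv, hw']
      group)
    refine ⟨g * iL α β f₀, φ₁, φ₂, ?_⟩
    rw [← h3, ← mul_assoc, ← map_mul, mul_inv_cancel, map_one, one_mul]
  · exfalso
    have hw' : w = g * (iL α β f₀ * (iR α β h * wd (iL α β) (iR α β) L * iL α β f) *
        iR α β h₀) := by rw [← hw]; group
    refine no_core ha hb (φ := MulAut.conj (g * iL α β f₀)⁻¹ * φ) hh hf h1 h2 ?_ ?_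
    · intro f'
      obtain ⟨f'', e⟩ := hF f'
      refine ⟨f₀⁻¹ * f'' * f₀, ?_⟩
      rw [MulAut.mul_apply, e, MulAut.conj_apply, map_mul, map_mul, map_inv]
      group
    · intro k
      obtain ⟨k', e⟩ := hH k
      refine ⟨h₀ * k' * h₀⁻¹, ?_⟩
      rw [MulAut.mul_apply, e, MulAut.conj_apply, map_mul, map_mul, map_inv, hw']
      group

end decomp

end Pool.Agent.P99223
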