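import Mathlib

/-!
# Hierarchies of free factors: definitions

`FreeGroup (Fin n)` is the free group on the letters `of i`, `i : Fin n`; automorphisms are elements
of `MulAut (FreeGroup (Fin n))`.
-/

set_option autoImplicit false

namespace Pool.Agent.P99223

open FreeGroup (of)

/-- The free factor of `FreeGroup α` generated by the letters in `X`. -/
def fct {α : Type} (X : Set α) : Subgroup (FreeGroup α) := Subgroup.closure (of '' X)

/-- `K` and `K'` are conjugate subgroups. -/
def Sim {G : Type} [Group G] (K K' : Subgroup G) : Prop :=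
  ∃ g : G, K = K'.map (MulAut.conj g).toMonoidHom

/-- A hierarchy on the set of letters: a family of sets of letters which contains the set of all
letters, and in which every member either has one element or is the disjoint union of two nonempty
members. -/
structure Hierarchy {n : ℕ} (𝒯 : Set (Finset (Fin n))) : Prop where
  top : Finset.univ ∈ 𝒯
  split : ∀ S ∈ 𝒯, S.card = 1 ∨ ∃ A ∈ 𝒯, ∃ B ∈ 𝒯, A.Nonempty ∧ B.Nonempty ∧ Disjoint A B ∧ A ∪ B = S

/-- `φ` permutes the conjugacy classes of the free factors `fct S`, `S ∈ 𝒯`. -/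
def Preserves {n : ℕ} (𝒯 : Set (Finset (Fin n))) (φ : MulAut (FreeGroup (Fin n))) : Prop :=
  ∀ S ∈ 𝒯, ∃ S' ∈ 𝒯, Sim ((fct (S : Set (Fin n))).map φ.toMonoidHom) (fct (S' : Set (Fin n)))

end Pool.Agent.P99223
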