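import Mathlib

/-!
A group with a linear subgroup of finite index is linear (induced representation).
-/

set_option autoImplicit false

namespace Pool.Agent.P99223

section

variable {G : Type} [Group G] {N : Subgroup G}

theorem nn_mem (g : G) (c : G ⧸ N) : (Quotient.out (g • c))⁻¹ * g * Quotient.out c ∈ N := by
  rw [mul_assoc, ← QuotientGroup.eq]
  rw [QuotientGroup.out_eq']
  have : ((g * Quotient.out c : G) : G ⧸ N) = g • ((Quotient.out c : G) : G ⧸ N) := rfl
  rw [this, QuotientGroup.out_eq']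

/-- the cocycle -/
noncomputable def nn (g : G) (c : G ⧸ N) : N := ⟨(Quotient.out (g • c))⁻¹ * g * Quotient.out c, nn_mem g c⟩

theorem nn_mul (g h : G) (c : G ⧸ N) : nn (g * h) c = nn g (h • c) * nn h c := by
  apply Subtype.ext
  change (Quotient.out ((g * h) • c))⁻¹ * (g * h) * Quotient.out c =
    ((Quotient.out (g • h • c))⁻¹ * g * Quotient.out (h • c)) *
      ((Quotient.out (h • c))⁻¹ * h * Quotient.out c)
  rw [mul_smul]
  group

theorem nn_one (c : G ⧸ N) : nn 1 c = 1 := by
  apply Subtype.ext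
  change (Quotient.out ((1 : G) • c))⁻¹ * 1 * Quotient.out c = 1
  rw [one_smul]
  group

variable {κ : Type} [Fintype κ] [DecidableEq κ] [Fintype (G ⧸ N)] [DecidableEq (G ⧸ N)]

/-- the induced representation -/
noncomputable def indR (ρ : N →* (Matrix κ κ ℂ)ˣ) :
    G →* Matrix ((G ⧸ N) × κ) ((G ⧸ N) × κ) ℂ where
  toFun g := Matrix.of fun x y => if x.1 = g • y.1 then (ρ (nn g y.1) : Matrix κ κ ℂ) x.2 y.2 else 0
  map_one' := by
    ext x y
    simp only [one_smul, nn_one, map_one, Units.val_one, Matrix.one_apply, Matrix.of_apply]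
    by_cases h1 : x.1 = y.1
    · by_cases h2 : x.2 = y.2
      · rw [if_pos h1, if_pos h2, if_pos (Prod.ext h1 h2)]
      · rw [if_pos h1, if_neg h2, if_neg (fun h => h2 (congrArg Prod.snd h))]
    · rw [if_neg h1, if_neg (fun h => h1 (congrArg Prod.fst h))]
  map_mul' g h := by
    ext x y
    rw [Matrix.mul_apply, Fintype.sum_prod_type, Finset.sum_eq_single (h • y.1)]
    · simp only [mul_smul, Matrix.of_apply]
      by_cases h1 : x.1 = g • h • y.1
      · simp only [if_pos h1, if_true]
        rw [nn_mul, map_mul, Units.val_mul, Matrix.mul_apply]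
      · simp only [if_neg h1, zero_mul, Finset.sum_const_zero]
    · intro z _ hz
      refine Finset.sum_eq_zero fun k _ => ?_
      simp only [Matrix.of_apply, if_neg hz, mul_zero]
    · intro h0
      exact absurd (Finset.mem_univ _) h0

theorem indR_injective [Nonempty κ] {ρ : N →* (Matrix κ κ ℂ)ˣ} (hρ : Function.Injective ρ) :
    ∀ g, indR ρ g = 1 → g = 1 := by
  intro g hg
  obtain ⟨i⟩ := (inferInstance : Nonempty κ)
  set c : G ⧸ N := ((1 : G) : G ⧸ N) with hc
  have h1 : ∀ x y, (if x.1 = g • y.1 then (ρ (nn g y.1) : Matrix κ κ ℂ) x.2 y.2 else 0) =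
      (1 : Matrix ((G ⧸ N) × κ) ((G ⧸ N) × κ) ℂ) x y := fun x y => congrFun (congrFun hg x) y
  have h2 : c = g • c := by
    by_contra h
    have := h1 (c, i) (c, i)
    rw [if_neg h, Matrix.one_apply_eq] at this
    exact zero_ne_one this
  have h3 : (ρ (nn g c) : Matrix κ κ ℂ) = 1 := by
    ext k l
    have := h1 (c, k) (c, l)
    rw [if_pos h2] at this
    rw [this, Matrix.one_apply, Matrix.one_apply]
    simp
  have h4 : nn g c = 1 := hρ (by rw [map_one]; exact Units.ext h3)
  have h5 := congrArg Subtype.val h4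
  change (Quotient.out (g • c))⁻¹ * g * Quotient.out c = 1 at h5
  rw [← h2] at h5
  have h6 : (Quotient.out c)⁻¹ * g * Quotient.out c = 1 := h5
  have h7 : g = Quotient.out c * ((Quotient.out c)⁻¹ * g * Quotient.out c) * (Quotient.out c)⁻¹ := by
    group
  rw [h7, h6]
  group

end

/-- `G` has a faithful finite-dimensional complex representation (of positive dimension) -/
def Lin (G : Type) [Group G] : Prop :=
  ∃ (κ : Type) (_ : Fintype κ) (_ : DecidableEq κ) (_ : Nonempty κ) (ρ : G →* (Matrix κ κ ℂ)ˣ),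
    Function.Injective ρ

theorem Lin.of_finite_index {G : Type} [Group G] (N : Subgroup G) [Finite (G ⧸ N)] (h : Lin N) :
    Lin G := by
  classical
  obtain ⟨κ, _, _, _, ρ, hρ⟩ := h
  have := Fintype.ofFinite (G ⧸ N)
  refine ⟨(G ⧸ N) × κ, inferInstance, inferInstance, inferInstance, (indR ρ).toHomUnits, ?_⟩
  rw [injective_iff_map_eq_one]
  intro g hg
  exact indR_injective hρ g (congrArg Units.val hg)

theorem Lin.of_injective {G H : Type} [Group G] [Group H] (h : Lin H) (f : G →* H)
    (hf : Function.Injective f) : Lin G := by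
  obtain ⟨κ, _, _, _, ρ, hρ⟩ := h
  exact ⟨κ, inferInstance, inferInstance, inferInstance, ρ.comp f, hρ.comp hf⟩

theorem Lin.exists_fin {G : Type} [Group G] (h : Lin G) :
    ∃ (m : ℕ) (ρ : G →* Matrix.GeneralLinearGroup (Fin m) ℂ), Function.Injective ρ := by
  obtain ⟨κ, _, _, _, ρ, hρ⟩ := h
  let e := Fintype.equivFin κ
  let R : G →* Matrix (Fin (Fintype.card κ)) (Fin (Fintype.card κ)) ℂ :=
    ((Matrix.reindexAlgEquiv ℂ ℂ e).toAlgHom : Matrix κ κ ℂ →* _).comp
      ((Units.coeHom _).comp ρ)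
  refine ⟨_, R.toHomUnits, ?_⟩
  rw [injective_iff_map_eq_one]
  intro g hg
  have h3 : R g = 1 := congrArg Units.val hg
  have h4 : Matrix.reindexAlgEquiv ℂ ℂ e (ρ g : Matrix κ κ ℂ) = Matrix.reindexAlgEquiv ℂ ℂ e 1 := by
    rw [map_one]; exact h3
  exact hρ (by rw [map_one]; exact Units.ext ((Matrix.reindexAlgEquiv ℂ ℂ e).injective h4))

end Pool.Agent.P99223
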