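import Mathlib
import Pool.Agent.Lib.P99223.Defs
import Pool.Agent.Lib.P99223.Decomp

/-!
Induction over a hierarchy of free factors.
-/

set_option autoImplicit false

namespace Pool.Agent.P99223

open FreeGroup (of)

section

variable {α : Type} [DecidableEq α]

/-- `φ` preserves the conjugacy classes of the letters and of the free factors in `𝒯` -/
def PureOn (𝒯 : Set (Finset α)) (S : Finset α) (φ : MulAut (FreeGroup S)) : Prop :=
  (∀ i : S, IsConj (of i) (φ (of i))) ∧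
    ∀ S' ∈ 𝒯, S' ⊆ S → Sim ((fct {i : S | i.1 ∈ S'}).map φ.toMonoidHom) (fct {i : S | i.1 ∈ S'})

/-- the claim proved by induction -/
def Cl (𝒯 : Set (Finset α)) (S : Finset α) : Prop :=
  ∃ (Γ : Type) (_ : Group Γ) (θ : Γ →* MulAut (FreeGroup S)), Function.Injective θ ∧ PropP θ ∧
    ∀ φ, PureOn 𝒯 S φ → φ ∈ θ.range

omit [DecidableEq α] in
theorem cl_one (𝒯 : Set (Finset α)) (a : α) : Cl 𝒯 {a} := by
  refine ⟨Unit, inferInstance, 1, fun _ _ _ => rfl, propP_one, ?_⟩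
  rintro φ ⟨h, -⟩
  refine ⟨1, ?_⟩
  rw [MonoidHom.one_apply]
  have hcomm : ∀ x y : FreeGroup ({a} : Finset α), x * y = y * x := by
    obtain ⟨c, hc⟩ := exists_gen (α := ({a} : Finset α))
    intro x y
    obtain ⟨m, rfl⟩ := hc x
    obtain ⟨k, rfl⟩ := hc y
    rw [← zpow_add, ← zpow_add, add_comm]
  have : φ.toMonoidHom = MonoidHom.id _ := by
    apply FreeGroup.ext_hom
    intro i
    obtain ⟨c, hc⟩ := isConj_iff.mp (h i)
    change φ (of i) = of i
    rw [← hc, hcomm c, mul_assoc, mul_inv_cancel, mul_one]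
  symm
  ext x
  exact DFunLike.congr_fun this x

omit [DecidableEq α] in
theorem map_conj_comp {G H : Type} [Group G] [Group H] (r : G →* H) (g : G) :
    r.comp (MulAut.conj g).toMonoidHom = (MulAut.conj (r g)).toMonoidHom.comp r := by
  apply MonoidHom.ext
  intro x
  simp

omit [DecidableEq α] in
/-- restriction of purity to a factor -/
theorem pure_of_decomp {𝒯 : Set (Finset α)} {S A : Finset α} (hAS : A ⊆ S)
    {j : FreeGroup A →* FreeGroup S} (hj : ∀ i : A, j (of i) = of ⟨i.1, hAS i.2⟩)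
    {r : FreeGroup S →* FreeGroup A} (hr : ∀ f, r (j f) = f) {φ : MulAut (FreeGroup S)}
    (hφ : PureOn 𝒯 S φ) {u : FreeGroup S} {φ₁ : MulAut (FreeGroup A)}
    (h : ∀ f, φ (j f) = u * j (φ₁ f) * u⁻¹) : PureOn 𝒯 A φ₁ := by
  refine ⟨?_, ?_⟩
  · intro i
    have h1 := hφ.1 ⟨i.1, hAS i.2⟩
    rw [← hj i, h] at h1
    have h2 : IsConj (j (of i)) (j (φ₁ (of i))) :=
      h1.trans (isConj_iff.mpr ⟨u⁻¹, by group⟩)
    have h3 := r.map_isConj h2
    rwa [hr, hr] at h3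
  · intro S' hS' hS'A
    obtain ⟨g, hg⟩ := hφ.2 S' hS' (hS'A.trans hAS)
    have hK : fct {i : S | i.1 ∈ S'} = (fct {i : A | i.1 ∈ S'}).map j := by
      rw [fct, fct, MonoidHom.map_closure]
      congr 1
      ext x
      constructor
      · rintro ⟨i, hi, rfl⟩
        exact ⟨of ⟨i.1, hS'A hi⟩, ⟨⟨i.1, hS'A hi⟩, hi, rfl⟩, hj _⟩
      · rintro ⟨_, ⟨i, hi, rfl⟩, rfl⟩
        exact ⟨⟨i.1, hAS i.2⟩, hi, (hj i).symm⟩
    rw [hK, Subgroup.map_map, Subgroup.map_map] at hg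
    have hc : φ.toMonoidHom.comp j = (MulAut.conj u).toMonoidHom.comp (j.comp φ₁.toMonoidHom) := by
      apply MonoidHom.ext
      intro f
      change φ (j f) = u * j (φ₁ f) * u⁻¹
      exact h f
    rw [hc] at hg
    have hg2 := congrArg (Subgroup.map r) hg
    rw [Subgroup.map_map, Subgroup.map_map] at hg2
    have hc2 : r.comp ((MulAut.conj u).toMonoidHom.comp (j.comp φ₁.toMonoidHom)) =
        (MulAut.conj (r u)).toMonoidHom.comp φ₁.toMonoidHom := by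
      apply MonoidHom.ext
      intro f
      change r (u * j (φ₁ f) * u⁻¹) = r u * φ₁ f * (r u)⁻¹
      rw [map_mul, map_mul, map_inv, hr]
    have hc3 : r.comp ((MulAut.conj g).toMonoidHom.comp j) = (MulAut.conj (r g)).toMonoidHom := by
      apply MonoidHom.ext
      intro f
      change r (g * j f * g⁻¹) = r g * f * (r g)⁻¹
      rw [map_mul, map_mul, map_inv, hr]
    rw [hc2, hc3] at hg2
    refine ⟨(r u)⁻¹ * r g, ?_⟩
    have hg3 := congrArg (Subgroup.map (MulAut.conj (r u)⁻¹).toMonoidHom) hg2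
    rw [Subgroup.map_map, Subgroup.map_map] at hg3
    have hc4 : (MulAut.conj (r u)⁻¹).toMonoidHom.comp ((MulAut.conj (r u)).toMonoidHom.comp
        φ₁.toMonoidHom) = φ₁.toMonoidHom := by
      apply MonoidHom.ext
      intro f
      change (r u)⁻¹ * (r u * φ₁ f * (r u)⁻¹) * (r u)⁻¹⁻¹ = φ₁ f
      group
    have hc5 : (MulAut.conj (r u)⁻¹).toMonoidHom.comp (MulAut.conj (r g)).toMonoidHom =
        (MulAut.conj ((r u)⁻¹ * r g)).toMonoidHom := by
      apply MonoidHom.ext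
      intro f
      change (r u)⁻¹ * (r g * f * (r g)⁻¹) * (r u)⁻¹⁻¹ =
        ((r u)⁻¹ * r g) * f * ((r u)⁻¹ * r g)⁻¹
      group
    rw [hc4, hc5] at hg3
    exact hg3

/-- the inductive step -/
theorem cl_union {𝒯 : Set (Finset α)} {A B : Finset α} (hd : Disjoint A B) (hA𝒯 : A ∈ 𝒯)
    (hB𝒯 : B ∈ 𝒯) (hA : A.Nonempty) (hB : B.Nonempty) (cA : Cl 𝒯 A) (cB : Cl 𝒯 B) :
    Cl 𝒯 (A ∪ B) := by
  obtain ⟨Γ₁, _, θ₁, i₁, p₁, r₁⟩ := cA
  obtain ⟨Γ₂, _, θ₂, i₂, p₂, r₂⟩ := cB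
  have : Nonempty A := hA.to_subtype
  have : Nonempty B := hB.to_subtype
  let e : FreeGroup (A ⊕ B) ≃* FreeGroup (A ∪ B : Finset α) :=
    FreeGroup.freeGroupCongr (Equiv.Finset.union A B hd)
  refine ⟨Nxt θ₁ θ₂, inferInstance, (MulAut.congr e).toMonoidHom.comp (nxt θ₁ θ₂), ?_, ?_, ?_⟩
  · exact (MulAut.congr e).injective.comp (nxt_injective i₁ i₂)
  · refine (propP_nxt p₁ p₂).congr e ?_
    intro g f
    change e (nxt θ₁ θ₂ g (e.symm (e f))) = _
    rw [e.symm_apply_apply]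
  · intro φ hφ
    have hAS : A ⊆ A ∪ B := Finset.subset_union_left
    have hBS : B ⊆ A ∪ B := Finset.subset_union_right
    let jA : FreeGroup A →* FreeGroup (A ∪ B : Finset α) := e.toMonoidHom.comp (iL A B)
    let jB : FreeGroup B →* FreeGroup (A ∪ B : Finset α) := e.toMonoidHom.comp (iR A B)
    have hjA : ∀ i : A, jA (of i) = of ⟨i.1, hAS i.2⟩ := by
      intro i
      change e (iL A B (of i)) = _
      simp [e]
    have hjB : ∀ i : B, jB (of i) = of ⟨i.1, hBS i.2⟩ := by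
      intro i
      change e (iR A B (of i)) = _
      simp [e]
    have hrA : ∀ f, (rL A B).comp e.symm.toMonoidHom (jA f) = f := by
      intro f
      change rL A B (e.symm (e (iL A B f))) = f
      rw [e.symm_apply_apply, rL_iL]
    have hrB : ∀ f, (rR A B).comp e.symm.toMonoidHom (jB f) = f := by
      intro f
      change rR A B (e.symm (e (iR A B f))) = f
      rw [e.symm_apply_apply, rR_iR]
    have hKA : (fct {i : (A ∪ B : Finset α) | i.1 ∈ A}) = jA.range := by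
      rw [fct, MonoidHom.range_eq_map, ← FreeGroup.closure_range_of, MonoidHom.map_closure]
      congr 1
      ext x
      constructor
      · rintro ⟨i, hi, rfl⟩
        exact ⟨of ⟨i.1, hi⟩, ⟨⟨i.1, hi⟩, rfl⟩, hjA _⟩
      · rintro ⟨_, ⟨i, rfl⟩, rfl⟩
        exact ⟨⟨i.1, hAS i.2⟩, i.2, (hjA i).symm⟩
    have hKB : (fct {i : (A ∪ B : Finset α) | i.1 ∈ B}) = jB.range := by
      rw [fct, MonoidHom.range_eq_map, ← FreeGroup.closure_range_of, MonoidHom.map_closure]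
      congr 1
      ext x
      constructor
      · rintro ⟨i, hi, rfl⟩
        exact ⟨of ⟨i.1, hi⟩, ⟨⟨i.1, hi⟩, rfl⟩, hjB _⟩
      · rintro ⟨_, ⟨i, rfl⟩, rfl⟩
        exact ⟨⟨i.1, hBS i.2⟩, i.2, (hjB i).symm⟩
    obtain ⟨g, hg⟩ := hφ.2 A hA𝒯 hAS
    obtain ⟨w, hw⟩ := hφ.2 B hB𝒯 hBS
    rw [hKA] at hg
    rw [hKB] at hw
    -- `φ' = e⁻¹ φ e`
    set φ' : MulAut (FreeGroup (A ⊕ B)) := (MulAut.congr e).symm φ with hφ'
    have hφ'a : ∀ f, φ' f = e.symm (φ (e f)) := fun f => rfl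
    have d1 : ∀ f', ∃ f'', φ' (iL A B f') = e.symm g * iL A B f'' * (e.symm g)⁻¹ := by
      intro f'
      have : φ (jA f') ∈ jA.range.map (MulAut.conj g).toMonoidHom := by
        rw [← hg]
        exact ⟨jA f', ⟨f', rfl⟩, rfl⟩
      obtain ⟨_, ⟨f'', rfl⟩, h⟩ := this
      refine ⟨f'', ?_⟩
      rw [hφ'a]
      change e.symm (φ (jA f')) = _
      rw [← h]
      change e.symm (g * e (iL A B f'') * g⁻¹) = _
      rw [map_mul, map_mul, map_inv, e.symm_apply_apply]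
    have d2 : ∀ f', ∃ f'', φ' (iL A B f'') = e.symm g * iL A B f' * (e.symm g)⁻¹ := by
      intro f'
      have : g * jA f' * g⁻¹ ∈ jA.range.map φ.toMonoidHom := by
        rw [hg]
        exact ⟨jA f', ⟨f', rfl⟩, rfl⟩
      obtain ⟨_, ⟨f'', rfl⟩, h⟩ := this
      refine ⟨f'', ?_⟩
      rw [hφ'a]
      have h' : φ (e (iL A B f'')) = g * e (iL A B f') * g⁻¹ := h
      rw [h', map_mul, map_mul, map_inv, e.symm_apply_apply]
    have d3 : ∀ f', ∃ f'', φ' (iR A B f') = e.symm w * iR A B f'' * (e.symm w)⁻¹ := by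
      intro f'
      have : φ (jB f') ∈ jB.range.map (MulAut.conj w).toMonoidHom := by
        rw [← hw]
        exact ⟨jB f', ⟨f', rfl⟩, rfl⟩
      obtain ⟨_, ⟨f'', rfl⟩, h⟩ := this
      refine ⟨f'', ?_⟩
      rw [hφ'a]
      change e.symm (φ (jB f')) = _
      rw [← h]
      change e.symm (w * e (iR A B f'') * w⁻¹) = _
      rw [map_mul, map_mul, map_inv, e.symm_apply_apply]
    have d4 : ∀ f', ∃ f'', φ' (iR A B f'') = e.symm w * iR A B f' * (e.symm w)⁻¹ := by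
      intro f'
      have : w * jB f' * w⁻¹ ∈ jB.range.map φ.toMonoidHom := by
        rw [hw]
        exact ⟨jB f', ⟨f', rfl⟩, rfl⟩
      obtain ⟨_, ⟨f'', rfl⟩, h⟩ := this
      refine ⟨f'', ?_⟩
      rw [hφ'a]
      have h' : φ (e (iR A B f'')) = w * e (iR A B f') * w⁻¹ := h
      rw [h', map_mul, map_mul, map_inv, e.symm_apply_apply]
    obtain ⟨ι, _, _, _, σ, τ, -, hσ⟩ := id p₁
    obtain ⟨κ, _, _, _, ς, τ', -, hς⟩ := id p₂
    obtain ⟨u, φ₁, φ₂, hdec⟩ := decomp (sep_aa (κ := κ) (hσ 0 1 (by norm_num)))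
      (sep_bb (ι := ι) (hς 0 1 (by norm_num))) d1 d2 d3 d4
    have c1 : ∀ f, φ (jA f) = e u * jA (φ₁ f) * (e u)⁻¹ := by
      intro f
      have h1 : e (φ' (iL A B f)) = φ (jA f) := by
        rw [hφ'a, e.apply_symm_apply]; rfl
      rw [← h1, hdec]
      change e (u * ext A B (φ₁, φ₂) (iL A B f) * u⁻¹) = _
      rw [ext_iL, map_mul, map_mul, map_inv]
      rfl
    have c2 : ∀ f, φ (jB f) = e u * jB (φ₂ f) * (e u)⁻¹ := by
      intro f
      have h1 : e (φ' (iR A B f)) = φ (jB f) := by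
        rw [hφ'a, e.apply_symm_apply]; rfl
      rw [← h1, hdec]
      change e (u * ext A B (φ₁, φ₂) (iR A B f) * u⁻¹) = _
      rw [ext_iR, map_mul, map_mul, map_inv]
      rfl
    obtain ⟨γ₁, hγ₁⟩ := r₁ φ₁ (pure_of_decomp hAS hjA hrA hφ c1)
    obtain ⟨γ₂, hγ₂⟩ := r₂ φ₂ (pure_of_decomp hBS hjB hrB hφ c2)
    refine ⟨⟨u, (γ₁, γ₂)⟩, ?_⟩
    have h1 : nxt θ₁ θ₂ ⟨u, (γ₁, γ₂)⟩ = φ' := by
      rw [hdec]
      ext x
      rw [nxt_apply]
      change u * ext A B (θ₁ γ₁, θ₂ γ₂) x * u⁻¹ = u * ext A B (φ₁, φ₂) x * u⁻¹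
      rw [hγ₁, hγ₂]
    change MulAut.congr e (nxt θ₁ θ₂ ⟨u, (γ₁, γ₂)⟩) = φ
    rw [h1, hφ', MulEquiv.apply_symm_apply]

/-- the claim for all members of the hierarchy -/
theorem cl_all {𝒯 : Set (Finset α)} (hs : ∀ S ∈ 𝒯, S.card = 1 ∨ ∃ A ∈ 𝒯, ∃ B ∈ 𝒯, A.Nonempty ∧
    B.Nonempty ∧ Disjoint A B ∧ A ∪ B = S) : ∀ (n : ℕ) (S : Finset α), S.card = n → S ∈ 𝒯 →
      Cl 𝒯 S := by
  intro n
  induction n using Nat.strong_induction_on with
  | _ n ih =>
  intro S hn hS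
  rcases hs S hS with h | ⟨A, hA, B, hB, nA, nB, hd, rfl⟩
  · obtain ⟨a, rfl⟩ := Finset.card_eq_one.mp h
    exact cl_one 𝒯 a
  · have h1 := Finset.card_union_of_disjoint hd
    have h2 := Finset.card_pos.mpr nA
    have h3 := Finset.card_pos.mpr nB
    exact cl_union hd hA hB nA nB (ih _ (by omega) A rfl hA) (ih _ (by omega) B rfl hB)

end

end Pool.Agent.P99223
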