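import Mathlib
import Pool.Agent.Lib.P99223.Tree
import Pool.Agent.Lib.P99223.FinIdx

/-!
The main theorem.
-/

set_option autoImplicit false

namespace Pool.Agent.P99223

open FreeGroup (of)

section sim

variable {G H : Type} [Group G] [Group H]

theorem sim_refl (K : Subgroup G) : Sim K K := by
  refine ⟨1, ?_⟩
  have : (MulAut.conj (1 : G)).toMonoidHom = MonoidHom.id G := by
    apply MonoidHom.ext
    intro x
    simp
  rw [this, Subgroup.map_id]

theorem Sim.symm {K K' : Subgroup G} (h : Sim K K') : Sim K' K := by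
  obtain ⟨g, rfl⟩ := h
  refine ⟨g⁻¹, ?_⟩
  rw [Subgroup.map_map]
  have : (MulAut.conj g⁻¹).toMonoidHom.comp (MulAut.conj g).toMonoidHom = MonoidHom.id G := by
    apply MonoidHom.ext
    intro x
    change g⁻¹ * (g * x * g⁻¹) * g⁻¹⁻¹ = x
    group
  rw [this, Subgroup.map_id]

theorem Sim.trans {K K' K'' : Subgroup G} (h : Sim K K') (h' : Sim K' K'') : Sim K K'' := by
  obtain ⟨g, rfl⟩ := h
  obtain ⟨g', rfl⟩ := h'
  refine ⟨g * g', ?_⟩
  rw [Subgroup.map_map]
  congr 1
  apply MonoidHom.ext
  intro x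
  change g * (g' * x * g'⁻¹) * g⁻¹ = g * g' * x * (g * g')⁻¹
  group

theorem Sim.map {K K' : Subgroup G} (h : Sim K K') (f : G →* H) : Sim (K.map f) (K'.map f) := by
  obtain ⟨g, rfl⟩ := h
  refine ⟨f g, ?_⟩
  rw [Subgroup.map_map, Subgroup.map_map]
  congr 1
  apply MonoidHom.ext
  intro x
  change f (g * x * g⁻¹) = f g * f x * (f g)⁻¹
  rw [map_mul, map_mul, map_inv]

end sim

section main

variable {n : ℕ}

/-- exponent sum of a letter -/
def expo (j : Fin n) : FreeGroup (Fin n) →* Multiplicative ℤ :=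
  FreeGroup.lift (fun k => if k = j then Multiplicative.ofAdd 1 else 1)

/-- a letter is mapped to a conjugate of a letter or its inverse -/
theorem conj_letter {φ : MulAut (FreeGroup (Fin n))} {i : Fin n} {S : Finset (Fin n)}
    (hS : S.Nonempty) (h : Sim ((fct ({i} : Set (Fin n))).map φ.toMonoidHom) (fct (S : Set (Fin n)))) :
    ∃ j, IsConj (of j) (φ (of i)) ∨ IsConj (of j)⁻¹ (φ (of i)) := by
  obtain ⟨g, hg⟩ := h
  obtain ⟨j, hj⟩ := hS
  refine ⟨j, ?_⟩
  have h1 : g * of j * g⁻¹ ∈ (fct ({i} : Set (Fin n))).map φ.toMonoidHom := by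
    rw [hg]
    exact ⟨of j, Subgroup.subset_closure ⟨j, hj, rfl⟩, rfl⟩
  rw [fct, Set.image_singleton, ← Subgroup.zpowers_eq_closure, MonoidHom.map_zpowers] at h1
  obtain ⟨k, hk⟩ := Subgroup.mem_zpowers_iff.mp h1
  change φ (of i) ^ k = g * of j * g⁻¹ at hk
  have h2 : k = 1 ∨ k = -1 := by
    have h3 := congrArg (expo j) hk
    rw [map_zpow, map_mul, map_mul, map_inv] at h3
    have h4 : expo j (of j) = Multiplicative.ofAdd 1 := by simp [expo]
    rw [h4] at h3
    have h5 := congrArg Multiplicative.toAdd h3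
    simp only [toAdd_zpow, toAdd_mul, toAdd_inv, toAdd_ofAdd] at h5
    have h6 : k * (Multiplicative.toAdd (expo j (φ (of i)))) = 1 := by
      rw [smul_eq_mul] at h5
      linarith
    exact Int.isUnit_iff.mp (IsUnit.of_mul_eq_one _ h6)
  rcases h2 with rfl | rfl
  · left
    rw [zpow_one] at hk
    exact isConj_iff.mpr ⟨g, hk.symm⟩
  · right
    refine isConj_iff.mpr ⟨g, ?_⟩
    rw [zpow_neg_one] at hk
    rw [← inv_inv (φ (of i)), hk]
    group

/-- the pure subgroup -/
def PureN (𝒯 : Set (Finset (Fin n))) : Subgroup (MulAut (FreeGroup (Fin n))) where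
  carrier := {φ | (∀ i, IsConj (of i) (φ (of i))) ∧
    ∀ S ∈ 𝒯, Sim ((fct (S : Set (Fin n))).map φ.toMonoidHom) (fct (S : Set (Fin n)))}
  one_mem' := by
    refine ⟨fun i => IsConj.refl _, fun S _ => ?_⟩
    have : (1 : MulAut (FreeGroup (Fin n))).toMonoidHom = MonoidHom.id _ := rfl
    rw [this, Subgroup.map_id]
    exact sim_refl _
  mul_mem' := by
    rintro φ ψ ⟨h1, h2⟩ ⟨h3, h4⟩
    refine ⟨fun i => ?_, fun S hS => ?_⟩
    · exact (h1 i).trans (φ.toMonoidHom.map_isConj (h3 i))
    · have : (φ * ψ : MulAut (FreeGroup (Fin n))).toMonoidHom =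
          φ.toMonoidHom.comp ψ.toMonoidHom := rfl
      rw [this, ← Subgroup.map_map]
      exact ((h4 S hS).map _).trans (h2 S hS)
  inv_mem' := by
    rintro φ ⟨h1, h2⟩
    refine ⟨fun i => ?_, fun S hS => ?_⟩
    · have h3 := (φ⁻¹ : MulAut _).toMonoidHom.map_isConj (h1 i)
      have h4 : (φ⁻¹ : MulAut (FreeGroup (Fin n))).toMonoidHom (φ (of i)) = of i := by
        change (φ⁻¹ * φ : MulAut (FreeGroup (Fin n))) (of i) = _
        rw [inv_mul_cancel]; rfl
      rw [h4] at h3
      exact h3.symm
    · have h3 := (h2 S hS).map (φ⁻¹ : MulAut (FreeGroup (Fin n))).toMonoidHom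
      rw [Subgroup.map_map] at h3
      have h4 : (φ⁻¹ : MulAut (FreeGroup (Fin n))).toMonoidHom.comp φ.toMonoidHom =
          MonoidHom.id _ := by
        apply MonoidHom.ext
        intro x
        change (φ⁻¹ * φ : MulAut (FreeGroup (Fin n))) x = _
        rw [inv_mul_cancel]; rfl
      rw [h4, Subgroup.map_id] at h3
      exact h3.symm

theorem lin_pure {𝒯 : Set (Finset (Fin n))} (h𝒯 : Hierarchy 𝒯) : Lin (PureN 𝒯) := by
  obtain ⟨Γ, _, θ, hθ, hP, hr⟩ := cl_all h𝒯.split _ Finset.univ rfl h𝒯.top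
  have hΓ : Lin Γ := by
    obtain ⟨m, ρ, hρ⟩ := hP.exists_injective hθ
    -- make the dimension positive
    obtain ⟨ι, _, _, _, σ, τ, h1, h2⟩ := id hP
    by_cases hm : Nonempty (Fin m)
    · exact ⟨Fin m, inferInstance, inferInstance, hm, ρ, hρ⟩
    · refine ⟨Unit, inferInstance, inferInstance, inferInstance, 1, ?_⟩
      have : IsEmpty (Fin m) := not_nonempty_iff.mp hm
      have hs : Subsingleton Γ := by
        constructor
        intro a b
        apply hρ
        apply Units.ext
        ext i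
        exact isEmptyElim i
      exact fun a b _ => Subsingleton.elim a b
  let e : FreeGroup (Finset.univ : Finset (Fin n)) ≃* FreeGroup (Fin n) :=
    FreeGroup.freeGroupCongr (Equiv.subtypeUnivEquiv Finset.mem_univ)
  have he : ∀ i : (Finset.univ : Finset (Fin n)), e (of i) = of i.1 := by
    intro i
    simp [e]
  have hes : ∀ i : Fin n, e.symm (of i) = of ⟨i, Finset.mem_univ i⟩ := by
    intro i
    rw [MulEquiv.symm_apply_eq, he]
  have key : ∀ φ : PureN 𝒯, (MulAut.congr e).symm φ.1 ∈ θ.range := by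
    rintro ⟨φ, h1, h2⟩
    refine hr _ ⟨?_, ?_⟩
    · intro i
      change IsConj (of i) (e.symm (φ (e (of i))))
      rw [he]
      have := e.symm.toMonoidHom.map_isConj (h1 i.1)
      change IsConj (e.symm (of i.1)) (e.symm (φ (of i.1))) at this
      rwa [hes] at this
    · intro S hS _
      have hK : fct {i : (Finset.univ : Finset (Fin n)) | i.1 ∈ S} =
          (fct (S : Set (Fin n))).map e.symm.toMonoidHom := by
        rw [fct, fct, MonoidHom.map_closure]
        congr 1
        ext x
        constructor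
        · rintro ⟨i, hi, rfl⟩
          exact ⟨of i.1, ⟨i.1, hi, rfl⟩, hes _⟩
        · rintro ⟨_, ⟨i, hi, rfl⟩, rfl⟩
          exact ⟨⟨i, Finset.mem_univ i⟩, hi, (hes i).symm⟩
      rw [hK, Subgroup.map_map]
      have hc : ((MulAut.congr e).symm φ).toMonoidHom.comp e.symm.toMonoidHom =
          e.symm.toMonoidHom.comp φ.toMonoidHom := by
        apply MonoidHom.ext
        intro x
        change e.symm (φ (e (e.symm x))) = e.symm (φ x)
        rw [e.apply_symm_apply]
      rw [hc, ← Subgroup.map_map]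
      exact (h2 S hS).map _
  let f : PureN 𝒯 →* θ.range :=
    ((MulAut.congr e).symm.toMonoidHom.comp (PureN 𝒯).subtype).codRestrict θ.range key
  have hf : Function.Injective f := by
    intro a b hab
    have h1 := congrArg Subtype.val hab
    have h2 : (MulAut.congr e).symm a.1 = (MulAut.congr e).symm b.1 := h1
    exact Subtype.ext ((MulAut.congr e).symm.injective h2)
  exact hΓ.of_injective ((MonoidHom.ofInjective hθ).symm.toMonoidHom.comp f)
    ((MonoidHom.ofInjective hθ).symm.injective.comp hf)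

/-- all singletons belong to a hierarchy -/
theorem singleton_mem {𝒯 : Set (Finset (Fin n))} (h𝒯 : Hierarchy 𝒯) (i : Fin n) : {i} ∈ 𝒯 := by
  have key : ∀ (m : ℕ) (S : Finset (Fin n)), S.card = m → S ∈ 𝒯 → i ∈ S → {i} ∈ 𝒯 := by
    intro m
    induction m using Nat.strong_induction_on with
    | _ m ih =>
    intro S hm hS hi
    rcases h𝒯.split S hS with h | ⟨A, hA, B, hB, nA, nB, hd, rfl⟩
    · obtain ⟨a, rfl⟩ := Finset.card_eq_one.mp h
      rw [Finset.mem_singleton] at hi
      rw [hi]; exact hS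
    · have h1 := Finset.card_union_of_disjoint hd
      have h2 := Finset.card_pos.mpr nA
      have h3 := Finset.card_pos.mpr nB
      rcases Finset.mem_union.mp hi with hi | hi
      · exact ih _ (by omega) A rfl hA hi
      · exact ih _ (by omega) B rfl hB hi
  exact key _ Finset.univ rfl h𝒯.top (Finset.mem_univ i)

theorem nonempty_of_mem {𝒯 : Set (Finset (Fin n))} (h𝒯 : Hierarchy 𝒯) {S : Finset (Fin n)}
    (hS : S ∈ 𝒯) : S.Nonempty := by
  rcases h𝒯.split S hS with h | ⟨A, _, B, _, nA, _, _, rfl⟩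
  · exact Finset.card_pos.mp (by omega)
  · exact nA.mono Finset.subset_union_left

/-- the main theorem -/
theorem main {𝒯 : Set (Finset (Fin n))} (h𝒯 : Hierarchy 𝒯)
    (H : Subgroup (MulAut (FreeGroup (Fin n)))) (hT : ∀ φ ∈ H, Preserves 𝒯 φ) : Lin H := by
  classical
  have hdata : ∀ φ : H, ∃ d : (Fin n → Fin n × Bool) × (𝒯 → 𝒯),
      (∀ i, IsConj (if (d.1 i).2 then of (d.1 i).1 else (of (d.1 i).1)⁻¹) (φ.1 (of i))) ∧
      ∀ S : 𝒯, Sim ((fct (S.1 : Set (Fin n))).map φ.1.toMonoidHom)
        (fct ((d.2 S).1 : Set (Fin n))) := by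
    intro φ
    have h1 : ∀ i : Fin n, ∃ c : Fin n × Bool,
        IsConj (if c.2 then of c.1 else (of c.1)⁻¹) (φ.1 (of i)) := by
      intro i
      obtain ⟨S', hS', h⟩ := hT φ.1 φ.2 {i} (singleton_mem h𝒯 i)
      rw [Finset.coe_singleton] at h
      obtain ⟨j, hj | hj⟩ := conj_letter (nonempty_of_mem h𝒯 hS') h
      · exact ⟨(j, true), by simpa using hj⟩
      · exact ⟨(j, false), by simpa using hj⟩
    have h2 : ∀ S : 𝒯, ∃ S' : 𝒯, Sim ((fct (S.1 : Set (Fin n))).map φ.1.toMonoidHom)
        (fct (S'.1 : Set (Fin n))) := by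
      intro S
      obtain ⟨S', hS', h⟩ := hT φ.1 φ.2 S.1 S.2
      exact ⟨⟨S', hS'⟩, h⟩
    choose c hc using h1
    choose s hs using h2
    exact ⟨(c, s), hc, hs⟩
  choose d hd1 hd2 using hdata
  have hN : ∀ φ ψ : H, d φ = d ψ → φ⁻¹ * ψ ∈ (PureN 𝒯).subgroupOf H := by
    intro φ ψ hdd
    rw [Subgroup.mem_subgroupOf]
    have hinv : ∀ x, (φ.1⁻¹ : MulAut (FreeGroup (Fin n))) (φ.1 x) = x := by
      intro x
      change (φ.1⁻¹ * φ.1 : MulAut (FreeGroup (Fin n))) x = _
      rw [inv_mul_cancel]; rfl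
    refine ⟨fun i => ?_, fun S hS => ?_⟩
    · have h1 := hd1 φ i
      have h2 := hd1 ψ i
      rw [hdd] at h1
      have h3 := (φ.1⁻¹ : MulAut (FreeGroup (Fin n))).toMonoidHom.map_isConj (h1.symm.trans h2)
      change IsConj ((φ.1⁻¹ : MulAut (FreeGroup (Fin n))) (φ.1 (of i)))
        ((φ.1⁻¹ : MulAut (FreeGroup (Fin n))) (ψ.1 (of i))) at h3
      rw [hinv] at h3
      exact h3
    · have h1 := hd2 φ ⟨S, hS⟩
      have h2 := hd2 ψ ⟨S, hS⟩
      rw [hdd] at h1
      have h3 := (h2.trans h1.symm).map (φ.1⁻¹ : MulAut (FreeGroup (Fin n))).toMonoidHom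
      rw [Subgroup.map_map, Subgroup.map_map] at h3
      have h4 : (φ.1⁻¹ : MulAut (FreeGroup (Fin n))).toMonoidHom.comp φ.1.toMonoidHom =
          MonoidHom.id _ := MonoidHom.ext hinv
      rw [h4, Subgroup.map_id] at h3
      exact h3
  have hfin : Finite (H ⧸ (PureN 𝒯).subgroupOf H) := by
    refine Finite.of_injective (fun c => d (Quotient.out c)) ?_
    intro c c' hcc
    have h1 := QuotientGroup.eq.mpr (hN _ _ hcc)
    rwa [QuotientGroup.out_eq', QuotientGroup.out_eq'] at h1
  refine Lin.of_finite_index ((PureN 𝒯).subgroupOf H) ?_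
  refine (lin_pure h𝒯).of_injective
    ((H.subtype.comp ((PureN 𝒯).subgroupOf H).subtype).codRestrict (PureN 𝒯) fun x => x.2) ?_
  intro a b hab
  have h1 := congrArg Subtype.val hab
  exact Subtype.ext (Subtype.ext h1)

end main

section flag

/-- the subgroup generated by the inner automorphisms and all `x_i ↦ x_j⁻¹ x_i x_j`, `j < i` -/
def Flag (n : ℕ) : Subgroup (MulAut (FreeGroup (Fin n))) :=
  Subgroup.closure ({φ | ∃ w, φ = MulAut.conj w} ∪
    {φ | ∃ i j : Fin n, j < i ∧ φ (of i) = (of j)⁻¹ * of i * of j ∧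
      ∀ k, k ≠ i → φ (of k) = of k})

variable {n : ℕ}

/-- the flag -/
def fl (n : ℕ) : Set (Finset (Fin n)) := {S | (∃ k, S = Finset.Iic k) ∨ ∃ k, S = {k}}

theorem hierarchy_fl (n : ℕ) : Hierarchy (fl (n + 1)) := by
  refine ⟨Or.inl ⟨Fin.last n, ?_⟩, ?_⟩
  · ext i
    simp [Fin.le_last]
  · rintro S (⟨k, rfl⟩ | ⟨k, rfl⟩)
    · refine Fin.cases ?_ (fun k => ?_) k
      · left
        have : (Finset.Iic 0 : Finset (Fin (n + 1))) = {0} := by
          ext i
          simp
        rw [this, Finset.card_singleton]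
      · right
        refine ⟨Finset.Iic k.castSucc, Or.inl ⟨_, rfl⟩, {k.succ}, Or.inr ⟨_, rfl⟩,
          ⟨k.castSucc, by simp⟩, ⟨k.succ, by simp⟩, ?_, ?_⟩
        · rw [Finset.disjoint_singleton_right, Finset.mem_Iic, not_le]
          exact Fin.castSucc_lt_succ
        · ext i
          simp only [Finset.mem_union, Finset.mem_Iic, Finset.mem_singleton, Fin.le_def,
            Fin.val_succ, Fin.val_castSucc, Fin.ext_iff]
          omega
    · left
      exact Finset.card_singleton k

theorem flag_le_pure : Flag n ≤ PureN (fl n) := by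
  rw [Flag, Subgroup.closure_le]
  rintro φ (⟨w, rfl⟩ | ⟨i, j, hji, hi, hk⟩)
  · exact ⟨fun i => isConj_iff.mpr ⟨w, rfl⟩, fun S _ => ⟨w, rfl⟩⟩
  · have hconj : ∀ l, ∃ t : FreeGroup (Fin n), φ (of l) = t * of l * t⁻¹ := by
      intro l
      by_cases h : l = i
      · subst h
        exact ⟨(of j)⁻¹, by rw [hi, inv_inv]⟩
      · exact ⟨1, by rw [hk l h]; group⟩
    refine ⟨fun l => ?_, ?_⟩
    · obtain ⟨t, ht⟩ := hconj l
      exact isConj_iff.mpr ⟨t, ht.symm⟩
    · rintro S (⟨k, rfl⟩ | ⟨k, rfl⟩)
      · rcases le_or_gt i k with hik | hik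
        · -- the factor is preserved
          have hjk : j ≤ k := hji.le.trans hik
          have hm : ∀ l, l ≤ k → of l ∈ fct ((Finset.Iic k : Finset (Fin n)) : Set (Fin n)) :=
            fun l hl => Subgroup.subset_closure ⟨l, by simpa using hl, rfl⟩
          have he : (fct ((Finset.Iic k : Finset (Fin n)) : Set (Fin n))).map φ.toMonoidHom =
              fct ((Finset.Iic k : Finset (Fin n)) : Set (Fin n)) := by
            apply le_antisymm
            · rw [fct, MonoidHom.map_closure, Subgroup.closure_le]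
              rintro _ ⟨_, ⟨l, hl, rfl⟩, rfl⟩
              have hl' : l ≤ k := by simpa using hl
              change φ (of l) ∈ fct _
              by_cases h : l = i
              · subst h
                rw [hi]
                exact mul_mem (mul_mem (inv_mem (hm j hjk)) (hm l hl')) (hm j hjk)
              · rw [hk l h]
                exact hm l hl'
            · have hj : of j ∈ (fct ((Finset.Iic k : Finset (Fin n)) : Set (Fin n))).map
                  φ.toMonoidHom := ⟨of j, hm j hjk, hk j hji.ne⟩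
              conv_lhs => rw [fct]
              rw [Subgroup.closure_le]
              rintro _ ⟨l, hl, rfl⟩
              have hl' : l ≤ k := by simpa using hl
              by_cases h : l = i
              · subst h
                have h1 : φ (of l) ∈ (fct ((Finset.Iic k : Finset (Fin n)) : Set (Fin n))).map
                  φ.toMonoidHom := ⟨of l, hm l hl', rfl⟩
                have h2 : of l = of j * φ (of l) * (of j)⁻¹ := by rw [hi]; group
                rw [h2]
                exact mul_mem (mul_mem hj h1) (inv_mem hj)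
              · exact ⟨of l, hm l hl', hk l h⟩
          rw [he]
          exact sim_refl _
        · -- the factor is fixed
          have he : (fct ((Finset.Iic k : Finset (Fin n)) : Set (Fin n))).map φ.toMonoidHom =
              fct ((Finset.Iic k : Finset (Fin n)) : Set (Fin n)) := by
            rw [fct, MonoidHom.map_closure]
            congr 1
            ext x
            constructor
            · rintro ⟨_, ⟨l, hl, rfl⟩, rfl⟩
              have hl' : l ≤ k := by simpa using hl
              exact ⟨l, hl, (hk l (hl'.trans_lt hik).ne).symm⟩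
            · rintro ⟨l, hl, rfl⟩
              have hl' : l ≤ k := by simpa using hl
              exact ⟨of l, ⟨l, hl, rfl⟩, hk l (hl'.trans_lt hik).ne⟩
          rw [he]
          exact sim_refl _
      · obtain ⟨t, ht⟩ := hconj k
        refine ⟨t, ?_⟩
        rw [fct, MonoidHom.map_closure, MonoidHom.map_closure]
        congr 1
        ext x
        constructor
        · rintro ⟨_, ⟨l, hl, rfl⟩, rfl⟩
          have hl' : l = k := by simpa using hl
          subst hl'
          exact ⟨of l, ⟨l, hl, rfl⟩, ht.symm⟩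
        · rintro ⟨_, ⟨l, hl, rfl⟩, rfl⟩
          have hl' : l = k := by simpa using hl
          subst hl'
          exact ⟨of l, ⟨l, hl, rfl⟩, ht⟩

theorem lin_flag (n : ℕ) : Lin (Flag n) := by
  rcases n with _ | n
  · refine ⟨Unit, inferInstance, inferInstance, inferInstance, 1, ?_⟩
    intro a b _
    apply Subtype.ext
    ext x
    exact Subsingleton.elim _ _
  · refine (lin_pure (hierarchy_fl n)).of_injective (Subgroup.inclusion flag_le_pure) ?_
    exact Subgroup.inclusion_injective _

end flag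

end Pool.Agent.P99223
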